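import Pool.Agent.VRB.MnrB
import Pool.Agent.VCI.MuC

/-!
# Minors

Linear algebra for the zero sets of sections of vector bundles.
-/

set_option autoImplicit false

open scoped LinearAlgebra.Projectivization
open MvPolynomial

namespace Pool.Agent.VRB

open Pool.Agent.VGS (Fl adj clo Coef)

namespace MnrAux

variable {R Cl : Type} {c : ℕ}

/-- rows as combinations of the rows of a minor -/
theorem comb {X : R → Cl → ℂ} {I : Fin c → R} {N : Fin c → Cl}
    (h : (Matrix.of fun i j => X (I i) (N j)).det ≠ 0)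
    (h1 : ∀ (I' : Fin (c + 1) → R) (N' : Fin (c + 1) → Cl),
      (Matrix.of fun i j => X (I' i) (N' j)).det = 0) (i : R) :
    ∃ b : Fin c → ℂ, ∀ l, X i l = ∑ j, b j * X (I j) l := by
  classical
  have key : ∀ l, ∃ b : Fin c → ℂ, X i l = ∑ j, b j * X (I j) l ∧
      ∀ j', X i (N j') = ∑ j, b j * X (I j) (N j') := by
    intro l
    have h2 := h1 (Fin.cons i I) (Fin.cons l N)
    obtain ⟨v, hv0, hv⟩ := Matrix.exists_vecMul_eq_zero_iff.2 h2
    have h3 : ∀ j', v 0 * X i ((Fin.cons l N : Fin (c + 1) → Cl) j') +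
        ∑ j : Fin c, v j.succ * X (I j) ((Fin.cons l N : Fin (c + 1) → Cl) j') = 0 := by
      intro j'
      have h4 := congrFun hv j'
      unfold Matrix.vecMul dotProduct at h4
      rw [Fin.sum_univ_succ] at h4
      simpa using h4
    have hv1 : v 0 ≠ 0 := by
      intro h4
      apply hv0
      have h5 : (fun j : Fin c => v j.succ) = 0 := by
        refine Matrix.eq_zero_of_vecMul_eq_zero h ?_
        funext j'
        have h6 := h3 j'.succ
        rw [h4, zero_mul, zero_add] at h6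
        unfold Matrix.vecMul dotProduct
        simpa using h6
      funext j
      refine Fin.cases h4 (fun j => ?_) j
      exact congrFun h5 j
    refine ⟨fun j => -v j.succ / v 0, ?_, fun j' => ?_⟩
    · have h6 := h3 0
      rw [Fin.cons_zero] at h6
      have h7 : ∑ j : Fin c, -v j.succ / v 0 * X (I j) l =
          -(∑ j : Fin c, v j.succ * X (I j) l) / v 0 := by
        rw [neg_div, Finset.sum_div, ← Finset.sum_neg_distrib]
        refine Finset.sum_congr rfl fun j _ => ?_
        ring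
      rw [h7, eq_div_iff hv1]
      linear_combination h6
    · have h6 := h3 j'.succ
      rw [Fin.cons_succ] at h6
      have h7 : ∑ j : Fin c, -v j.succ / v 0 * X (I j) (N j') =
          -(∑ j : Fin c, v j.succ * X (I j) (N j')) / v 0 := by
        rw [neg_div, Finset.sum_div, ← Finset.sum_neg_distrib]
        refine Finset.sum_congr rfl fun j _ => ?_
        ring
      rw [h7, eq_div_iff hv1]
      linear_combination h6
  by_cases hL : Nonempty Cl
  · obtain ⟨l₀⟩ := hL
    obtain ⟨b, -, hb⟩ := key l₀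
    refine ⟨b, fun l => ?_⟩
    obtain ⟨b', hb', hb''⟩ := key l
    have h2 : b' - b = 0 := by
      refine Matrix.eq_zero_of_vecMul_eq_zero h ?_
      funext j'
      have h3 := (hb'' j').symm.trans (hb j')
      unfold Matrix.vecMul dotProduct
      simp only [Pi.sub_apply, Matrix.of_apply, sub_mul, Finset.sum_sub_distrib, Pi.zero_apply]
      rw [h3, sub_self]
    rw [hb', sub_eq_zero.1 h2]
  · exact ⟨0, fun l => absurd ⟨l⟩ hL⟩

theorem solve_zero {M : Matrix (Fin c) (Fin c) ℂ} (h : M.det ≠ 0) {x : Fin c → ℂ}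
    (hx : ∀ i, ∑ j, M i j * x j = 0) : ∀ j, x j = 0 := by
  have h1 : x = 0 := Matrix.eq_zero_of_mulVec_eq_zero h (funext fun i => hx i)
  exact fun j => congrFun h1 j

theorem solve_mem {M : Matrix (Fin c) (Fin c) ℂ} (h : M.det ≠ 0) {κ : Fl}
    (hκ : ∀ i j, M i j ∈ κ) {x : Fin c → ℂ} (hx : ∀ i, ∑ j, M i j * x j ∈ κ) :
    ∀ j, x j ∈ κ := by
  classical
  let M' : Matrix (Fin c) (Fin c) κ := Matrix.of fun i j => ⟨M i j, hκ i j⟩
  let y : Fin c → κ := fun i => ⟨_, hx i⟩
  have hM : M'.map (algebraMap κ ℂ) = M := by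
    ext i j
    rfl
  have hM' : M'.det ≠ 0 := by
    intro h0
    apply h
    have h1 := (algebraMap κ ℂ).map_det M'
    rw [h0, map_zero] at h1
    rw [← hM]
    exact h1.symm
  have h1 : M'.mulVec (M'⁻¹.mulVec y) = y := by
    rw [Matrix.mulVec_mulVec, Matrix.mul_nonsing_inv _ (isUnit_iff_ne_zero.2 hM'),
      Matrix.one_mulVec]
  generalize hv : M'⁻¹.mulVec y = v at h1
  have h2 : ∀ i, ∑ j, M i j * (v j : ℂ) = ∑ j, M i j * x j := by
    intro i
    have h3 := congrArg (algebraMap κ ℂ) (congrFun h1 i)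
    unfold Matrix.mulVec dotProduct at h3
    rw [map_sum] at h3
    exact h3
  have h3 := solve_zero h (x := fun j => x j - (v j : ℂ)) fun i => by
    simp only [mul_sub, Finset.sum_sub_distrib]
    rw [h2, sub_self]
  intro j
  rw [sub_eq_zero.1 (h3 j)]
  exact (v j).2

end MnrAux

section Mnr

variable {n m c : ℕ} {Λ : Type}

/-- the minor as a polynomial -/
noncomputable def mnrP (S : Fin m → Λ → MvPolynomial (Fin n) ℂ) (I : Fin c → Fin m)
    (N : Fin c → Λ) : MvPolynomial (Fin n) ℂ := (Matrix.of fun i j => S (I i) (N j)).det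

theorem aeval_mnrP (S : Fin m → Λ → MvPolynomial (Fin n) ℂ) (I : Fin c → Fin m)
    (N : Fin c → Λ) (w : Fin n → ℂ) : aeval w (mnrP S I N) = mnr S I N w := by
  unfold mnrP mnr
  rw [AlgHom.map_det]
  rfl

theorem coef_mnrP {κ : Fl} {S : Fin m → Λ → MvPolynomial (Fin n) ℂ} (h : ∀ i l, Coef κ (S i l))
    (I : Fin c → Fin m) (N : Fin c → Λ) : Coef κ (mnrP S I N) := by
  choose S' hS' using fun i l => VGS.coef_iff.1 (h i l)
  refine VGS.coef_iff.2 ⟨(Matrix.of fun i j => S' (I i) (N j)).det, ?_⟩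
  unfold mnrP
  rw [RingHom.map_det]
  congr 1
  ext1 i j
  exact hS' _ _

theorem hom_mnrP {S : Fin m → Λ → MvPolynomial (Fin n) ℂ} {e : Fin m → ℕ}
    (h : ∀ i l, (S i l).IsHomogeneous (e i)) (I : Fin c → Fin m) (N : Fin c → Λ) :
    (mnrP S I N).IsHomogeneous (∑ i, e (I i)) := by
  unfold mnrP
  rw [Matrix.det_apply']
  refine IsHomogeneous.sum _ _ _ fun σ _ => ?_
  have h1 := IsHomogeneous.prod Finset.univ
    (fun i => (Matrix.of fun i j => S (I i) (N j)) (σ i) i) (fun i => e (I (σ i)))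
    fun i _ => h _ _
  rw [Equiv.sum_comp σ fun i => e (I i)] at h1
  have h2 := (isHomogeneous_C (Fin n) (((Equiv.Perm.sign σ : ℤ) : ℂ))).mul h1
  rw [zero_add] at h2
  rwa [map_intCast] at h2

/-- if a `c`-minor is not zero and all `(c + 1)`-minors are zero, the rows are combinations of the
rows of the minor -/
theorem row_comb {X : Fin m → Λ → ℂ} {I : Fin c → Fin m} {N : Fin c → Λ}
    (h : (Matrix.of fun i j => X (I i) (N j)).det ≠ 0)
    (h1 : ∀ (I' : Fin (c + 1) → Fin m) (N' : Fin (c + 1) → Λ),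
      (Matrix.of fun i j => X (I' i) (N' j)).det = 0) (i : Fin m) :
    ∃ b : Fin c → ℂ, ∀ l, X i l = ∑ j, b j * X (I j) l := MnrAux.comb h h1 i

/-- a linear system -/
theorem solve_mem {X : Fin m → Λ → ℂ} {I : Fin c → Fin m} {N : Fin c → Λ}
    (h : (Matrix.of fun i j => X (I i) (N j)).det ≠ 0) {κ : Fl}
    (hκ : ∀ i j, X (I i) (N j) ∈ κ) {x : Fin c → ℂ}
    (hx : ∀ i, ∑ j, X (I i) (N j) * x j ∈ κ) : ∀ j, x j ∈ κ :=
  MnrAux.solve_mem h hκ hx

theorem solve_zero {X : Fin m → Λ → ℂ} {I : Fin c → Fin m} {N : Fin c → Λ}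
    (h : (Matrix.of fun i j => X (I i) (N j)).det ≠ 0) {x : Fin c → ℂ}
    (hx : ∀ i, ∑ j, X (I i) (N j) * x j = 0) : ∀ j, x j = 0 :=
  MnrAux.solve_zero h hx

/-- the same for columns; the coefficients are in the field of the entries -/
theorem col_comb {X : Fin m → Λ → ℂ} {I : Fin c → Fin m} {N : Fin c → Λ}
    (h : (Matrix.of fun i j => X (I i) (N j)).det ≠ 0)
    (h1 : ∀ (I' : Fin (c + 1) → Fin m) (N' : Fin (c + 1) → Λ),
      (Matrix.of fun i j => X (I' i) (N' j)).det = 0) {κ : Fl} (hκ : ∀ i l, X i l ∈ κ) (l : Λ) :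
    ∃ b : Fin c → ℂ, (∀ j, b j ∈ κ) ∧ ∀ i, X i l = ∑ j, b j * X i (N j) := by
  obtain ⟨b, hb⟩ := MnrAux.comb (X := fun l i => X i l) (I := N) (N := I)
    (by
      have h2 : (Matrix.of fun i j => X (I j) (N i)) =
          (Matrix.of fun i j => X (I i) (N j)).transpose := rfl
      rw [h2, Matrix.det_transpose]
      exact h)
    (fun I' N' => by
      have h2 : (Matrix.of fun i j => X (N' j) (I' i)) =
          (Matrix.of fun i j => X (N' i) (I' j)).transpose := rfl
      rw [h2, Matrix.det_transpose]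
      exact h1 _ _) l
  refine ⟨b, solve_mem h (fun i j => hκ _ _) fun i => ?_, hb⟩
  have h2 : ∑ j, X (I i) (N j) * b j = X (I i) l := by
    rw [hb (I i)]
    exact Finset.sum_congr rfl fun j _ => mul_comm _ _
  rw [h2]
  exact hκ _ _

/-- if the rows `I` of `X * b` are independent, so are those of `X` -/
theorem exists_cols {L : ℕ} {X : Fin m → Fin L → ℂ} {I : Fin c → Fin m} {b : Fin c → Fin L → ℂ}
    (h : (Matrix.of fun i j => ∑ l, b j l * X (I i) l : Matrix (Fin c) (Fin c) ℂ).det ≠ 0) :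
    ∃ N : Fin c → Fin L, (Matrix.of fun i j => X (I i) (N j)).det ≠ 0 := by
  classical
  by_contra hcon
  push Not at hcon
  apply h
  rw [← Matrix.det_transpose]
  have h1 : (Matrix.of fun i j => ∑ l, b j l * X (I i) l : Matrix (Fin c) (Fin c) ℂ).transpose =
      fun j => ∑ l, b j l • fun i => X (I i) l := by
    funext j i
    rw [Finset.sum_apply]
    rfl
  rw [h1]
  have h2 := (Matrix.detRowAlternating (n := Fin c) (R := ℂ)).toMultilinearMap.map_sum
    (fun j (l : Fin L) => b j l • fun i => X (I i) l)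
  refine h2.trans (Finset.sum_eq_zero fun N _ => ?_)
  have h3 := (Matrix.detRowAlternating (n := Fin c) (R := ℂ)).toMultilinearMap.map_smul_univ
    (fun j => b j (N j)) (fun j => fun i => X (I i) (N j))
  refine h3.trans ?_
  have h4 : (Matrix.detRowAlternating (n := Fin c) (R := ℂ)).toMultilinearMap
      (fun j => fun i => X (I i) (N j)) = 0 := by
    have h5 := hcon N
    rw [← Matrix.det_transpose] at h5
    exact h5
  rw [h4, smul_zero]

end Mnr

end Pool.Agent.VRB
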