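import Pool.Agent.VRB.Eqs
import Pool.Agent.VRB.Mnr

/-! Zero sets of sections of vector bundles: the letters at a generic point. -/

set_option autoImplicit false

open scoped LinearAlgebra.Projectivization
open MvPolynomial

namespace Pool.Agent.VRB

open Pool.Agent.VGS (Fl adj clo Coef Kills IsPl Sp le_adj le_clo subset_adj adj_le clo_mono ai_mono
  ai_iff ai_sum mem_clo mem_clo_adj adj_adj ai_clo clo_clo aeval_mem exists_algInd clo_adj_le
  ai_mono_clo ai_card)
open Pool.Agent.VCI
open Pool.Agent.VRC (cone TrLe lin_basis)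

/-- a sum over all columns is the sum over the columns of a minor and the sum over the others -/
private theorem sum_cols {L c : ℕ} {R : Type*} [AddCommMonoid R] {N : Fin c → Fin L}
    (hN : Function.Injective N) (F : Fin L → R) :
    ∑ l, F l = ∑ j, F (N j) + ∑ l : {l : Fin L // ¬ l ∈ Set.range N}, F l.1 := by
  classical
  rw [← (Equiv.sumCompl (fun l => l ∈ Set.range N)).sum_comp, Fintype.sum_sum_type,
    ← (Equiv.ofInjective N hN).sum_comp]
  rfl

private theorem card_cols {L c : ℕ} {N : Fin c → Fin L} (hN : Function.Injective N) :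
    Nat.card {l : Fin L // ¬ l ∈ Set.range N} + c = L := by
  classical
  have h2 := Nat.card_congr (Equiv.sumCompl (fun l => l ∈ Set.range N))
  have h1 : Nat.card {l : Fin L // l ∈ Set.range N} = c := by
    have := Nat.card_congr (Equiv.ofInjective N hN)
    rw [Nat.card_eq_fintype_card, Fintype.card_fin] at this
    exact this.symm
  rw [Nat.card_sum, h1, Nat.card_eq_fintype_card (α := Fin L), Fintype.card_fin] at h2
  omega

/-- the kernel of a matrix of rank `c` is parametrised by all but `c` of the coordinates -/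
theorem exists_ker {m L c : ℕ} {X : Matrix (Fin m) (Fin L) ℂ} {κ : Fl} (hrk : X.rank = c)
    (hκ : ∀ i l, X i l ∈ κ) :
    ∃ (Λ : Type) (_ : Fintype Λ) (e : Λ → Fin L) (T : Matrix (Fin L) Λ ℂ),
      Nat.card Λ + c = L ∧ (∀ l' l, T l' l ∈ κ) ∧ X * T = 0 ∧
      ∀ v, X.mulVec v = 0 → T.mulVec (fun l => v (e l)) = v := by
  classical
  obtain ⟨I, N, hd⟩ := exists_mnr hrk
  have hN : Function.Injective N := by
    intro i j hij
    by_contra hne
    exact hd (Matrix.det_zero_of_column_eq hne fun k => by simp [hij])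
  have h1 := col_comb hd (fun I' N' => mnr_zero hrk.le I' N') hκ
  choose b hbκ hb using h1
  refine ⟨{l : Fin L // ¬ l ∈ Set.range N}, inferInstance, fun l => l.1,
    Matrix.of fun l' l => (if l' = l.1 then 1 else 0) - ∑ j, if l' = N j then b l.1 j else 0,
    card_cols hN, fun l' l => ?_, ?_, fun v hv => ?_⟩
  · rw [Matrix.of_apply]
    refine sub_mem ?_ (sum_mem fun j _ => ?_)
    · split_ifs
      · exact one_mem _
      · exact zero_mem _
    · split_ifs
      · exact hbκ _ _
      · exact zero_mem _
  · ext i l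
    rw [Matrix.mul_apply]
    simp only [Matrix.of_apply, Matrix.zero_apply, mul_sub, Finset.sum_sub_distrib, mul_ite,
      mul_one, mul_zero, Finset.sum_ite_eq', Finset.mem_univ, if_true, Finset.mul_sum]
    rw [Finset.sum_comm]
    simp only [Finset.sum_ite_eq', Finset.mem_univ, if_true]
    rw [sub_eq_zero, hb]
    exact Finset.sum_congr rfl fun j _ => mul_comm _ _
  · have hu : ∀ j, v (N j) + ∑ l : {l : Fin L // ¬ l ∈ Set.range N}, b l.1 j * v l.1 = 0 := by
      refine solve_zero hd fun i => ?_
      have h2 := congrFun hv (I i)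
      rw [Matrix.mulVec, dotProduct, Pi.zero_apply, sum_cols hN] at h2
      rw [← h2]
      simp only [mul_add, Finset.sum_add_distrib]
      congr 1
      simp only [Finset.mul_sum]
      rw [Finset.sum_comm]
      refine Finset.sum_congr rfl fun l _ => ?_
      rw [hb (l.1) (I i), Finset.sum_mul]
      exact Finset.sum_congr rfl fun j _ => by ring
    funext l'
    rw [Matrix.mulVec, dotProduct]
    simp only [Matrix.of_apply, sub_mul, Finset.sum_sub_distrib, ite_mul, one_mul, zero_mul,
      Finset.sum_mul]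
    by_cases hl : l' ∈ Set.range N
    · obtain ⟨j₀, rfl⟩ := hl
      have e1 : ∑ l : {l : Fin L // ¬ l ∈ Set.range N}, (if N j₀ = l.1 then v l.1 else 0) = 0 :=
        Finset.sum_eq_zero fun l _ => by
          rw [if_neg]
          intro h
          exact l.2 ⟨j₀, h⟩
      have e2 : ∀ l : {l : Fin L // ¬ l ∈ Set.range N},
          ∑ j, (if N j₀ = N j then b l.1 j * v l.1 else 0) = b l.1 j₀ * v l.1 := by
        intro l
        rw [Finset.sum_eq_single j₀]
        · rw [if_pos rfl]
        · intro j _ hj
          rw [if_neg]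
          intro h
          exact hj (hN h).symm
        · intro h
          exact absurd (Finset.mem_univ _) h
      rw [e1, Finset.sum_congr rfl fun l _ => e2 l, zero_sub]
      exact (eq_neg_of_add_eq_zero_left (hu j₀)).symm
    · have e1 : ∑ l : {l : Fin L // ¬ l ∈ Set.range N}, (if l' = l.1 then v l.1 else 0) = v l' := by
        rw [Finset.sum_eq_single ⟨l', hl⟩]
        · rw [if_pos rfl]
        · intro l _ hne
          rw [if_neg]
          rintro rfl
          exact hne rfl
        · intro h
          exact absurd (Finset.mem_univ _) h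
      have e2 : ∑ l : {l : Fin L // ¬ l ∈ Set.range N},
          ∑ j, (if l' = N j then b l.1 j * v l.1 else 0) = 0 :=
        Finset.sum_eq_zero fun l _ => Finset.sum_eq_zero fun j _ => by
          rw [if_neg]
          rintro rfl
          exact hl ⟨j, rfl⟩
      rw [e1, e2, sub_zero]

/-- larger minors of a matrix of rank at most `c` are zero -/
private theorem det_zero {ι κ : Type*} [Fintype κ] {c : ℕ} {Q : Matrix ι κ ℂ} (h : Q.rank ≤ c)
    (I : Fin (c + 1) → ι) (N : Fin (c + 1) → κ) :
    (Matrix.of fun i j => Q (I i) (N j)).det = 0 := by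
  by_contra h0
  have h1 := Matrix.linearIndependent_rows_of_det_ne_zero h0
  have h2 := h1.rank_matrix
  rw [Fintype.card_fin] at h2
  have h3 : (Q.submatrix I N).rank ≤ Q.rank := Matrix.rank_submatrix_le _ _ _
  have h4 : (Q.submatrix I N) = Matrix.of fun i j => Q (I i) (N j) := rfl
  rw [h4, h2] at h3
  omega

/-- a nonzero minor of size `c` -/
private theorem le_rank {ι κ : Type*} [Fintype κ] {c : ℕ} {Q : Matrix ι κ ℂ}
    {I : Fin c → ι} {N : Fin c → κ} (h : (Matrix.of fun i j => Q (I i) (N j)).det ≠ 0) :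
    c ≤ Q.rank := by
  have h1 := Matrix.linearIndependent_rows_of_det_ne_zero h
  have h2 := h1.rank_matrix
  rw [Fintype.card_fin] at h2
  have h3 : (Q.submatrix I N).rank ≤ Q.rank := Matrix.rank_submatrix_le _ _ _
  have h4 : (Q.submatrix I N) = Matrix.of fun i j => Q (I i) (N j) := rfl
  rwa [h4, h2] at h3

variable {n : ℕ} [NeZero n] {s m L c : ℕ} {k K : Fl} {h : Fin s → MvPolynomial (Fin n) ℂ}
  {g : Fin m → Fin L → MvPolynomial (Fin n) ℂ} {a : Fin L → ℂ} {d : Fin (s + m) → ℕ}

/-- the letters at a generic point: `c` of the `a l` are eliminated; the `S l` are combinations of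
the sections, which are zero at `z` -/
theorem lt_of (H : LinB c k h g a K d) {z : Fin n → ℂ} (hz : z ≠ 0) {i₀ : Fin n}
    (hzi : z i₀ = 1) (hp : Projectivization.mk ℂ z hz ∈ Gen K (eqs h g a)) :
    ∃ (Λ : Type) (_ : Fintype Λ) (A : Λ → ℂ) (S : Fin m → Λ → MvPolynomial (Fin n) ℂ),
      Lt c (adj k (Set.range z)) A S d (eqs h g a) ∧
      adj (adj k (Set.range z)) (Set.range A) = adj K (Set.range z) ∧
      (∀ l, ∃ b : Fin L → ℂ, ∀ i, S i l = ∑ l', C (b l') * g i l') ∧
      ∀ y ∈ cone (eqs h g a), Sp2 g z y ↔ Full c S y := by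
  classical
  have hck := H.ck
  have hzX : z ∈ cone (eqs h g a) := ⟨hz, (mem_surf_mk H.hom hz).1 hp.1⟩
  obtain ⟨-, hz1⟩ := cone_eqs hzX
  have hzκ : ∀ j, z j ∈ adj k (Set.range z) := fun j => subset_adj _ _ ⟨j, rfl⟩
  have hgκ : ∀ i l, mat g z i l ∈ adj k (Set.range z) := fun i l =>
    aeval_mem ((H.coefg i l).mono (le_adj _ _)) hzκ
  obtain ⟨Λ, hΛ, e, T, hcard, hTκ, hXT, hker⟩ := exists_ker (H.rk z hzX) hgκ
  have ha0 : (mat g z).mulVec a = 0 := by
    funext i
    exact hz1 i
  have hTa : ∀ l', a l' = ∑ l, T l' l * a (e l) := fun l' => (congrFun (hker a ha0) l').symm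
  have hS : ∀ y, (Matrix.of fun i l => aeval y (∑ l', C (T l' l) * g i l') :
      Matrix (Fin m) Λ ℂ) = mat g y * T := by
    intro y
    ext i l
    rw [Matrix.of_apply, map_sum, Matrix.mul_apply]
    refine Finset.sum_congr rfl fun l' _ => ?_
    rw [map_mul, aeval_C, mul_comm]
    rfl
  refine ⟨Λ, hΛ, fun l => a (e l), fun i l => ∑ l', C (T l' l) * g i l', ?_, ?_,
    fun l => ⟨fun l' => T l' l, fun i => rfl⟩, fun y hy => ?_⟩
  · -- independence
    have hai : AlgebraicIndependent (adj k (Set.range z)) (fun l : Λ => a (e l)) := by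
      obtain ⟨j, l, hjl⟩ := gen_coord H.hom hz hzi hp
      obtain ⟨e', f, hf, hfz⟩ := lin_basis k z
      have he := VRC.TrLe.le_of_ai (H.trd z hzX i₀ hzi) hf
      have hx : AlgebraicIndependent k (Sum.elim a ![z j, z l]) := by
        rw [ai_sum, ← H.hK]
        exact ⟨H.ai, hjl⟩
      let y : Fin e' ⊕ Λ → ℂ := Sum.elim (fun b => z (f b)) (fun l => a (e l))
      have hzY : ∀ j, z j ∈ clo (adj k (Set.range y)) := by
        intro j
        refine clo_mono (adj_le (le_adj _ _) ?_) (hfz j)
        rintro _ ⟨b, rfl⟩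
        exact subset_adj _ _ ⟨Sum.inl b, rfl⟩
      have hzY' : adj k (Set.range z) ≤ clo (adj k (Set.range y)) := by
        refine adj_le ((le_adj _ _).trans (le_clo _)) ?_
        rintro _ ⟨j, rfl⟩
        exact hzY j
      have haY : ∀ l', a l' ∈ clo (adj k (Set.range y)) := by
        intro l'
        rw [hTa l']
        exact sum_mem fun l _ => mul_mem (hzY' (hTκ _ _)) (le_clo _ (subset_adj _ _ ⟨Sum.inr l, rfl⟩))
      have hy : AlgebraicIndependent k y := by
        refine ai_card hx ?_ ?_
        · rw [Nat.card_sum, Nat.card_sum, ← hcard]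
          simp only [Nat.card_eq_fintype_card, Fintype.card_fin] at hcard ⊢
          omega
        · rintro (l' | b)
          · exact haY l'
          · fin_cases b
            · exact hzY j
            · exact hzY l
      obtain ⟨-, h1⟩ := ai_sum.1 hy
      refine ai_mono_clo ?_ h1
      refine adj_le ((le_adj _ _).trans (le_clo _)) ?_
      rintro _ ⟨j, rfl⟩
      exact hfz j
    refine
      { cκ := inferInstance
        ai := hai
        coefS := fun i l t => ?_
        homS := fun i l => ?_
        hom := H.hom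
        coefh := fun j => ?_
        eq := fun i => ?_
        rk := fun w hw I N => ?_ }
    · rw [coeff_sum]
      refine sum_mem fun l' _ => ?_
      rw [coeff_C_mul]
      exact mul_mem (hTκ _ _) (le_adj _ _ (H.coefg _ _ t))
    · refine IsHomogeneous.sum _ _ _ fun l' _ => ?_
      have h1 := (isHomogeneous_C (Fin n) (T l' l)).mul (H.homg i l')
      rwa [zero_add] at h1
    · rw [eqs_cast]
      exact (H.coefh j).mono (le_adj _ _)
    · rw [eqs_nat]
      simp only [Finset.mul_sum]
      rw [Finset.sum_comm]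
      refine Finset.sum_congr rfl fun l' _ => ?_
      rw [hTa l', map_sum, Finset.sum_mul]
      refine Finset.sum_congr rfl fun l _ => ?_
      rw [map_mul]
      ring
    · refine det_zero (Q := (Matrix.of fun i l => aeval w (∑ l', C (T l' l) * g i l') :
        Matrix (Fin m) Λ ℂ)) ?_ I N
      rw [hS w, ← H.rk w hw]
      exact Matrix.rank_mul_le_left _ _
  · apply le_antisymm
    · refine adj_le (adj_le ?_ (subset_adj _ _)) ?_
      · rw [H.hK]
        exact (le_adj _ _).trans (le_adj _ _)
      · rintro _ ⟨l, rfl⟩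
        refine le_adj _ _ ?_
        rw [H.hK]
        exact subset_adj _ _ ⟨e l, rfl⟩
    · refine adj_le ?_ ((subset_adj _ _).trans (le_adj _ _))
      conv_lhs => rw [H.hK]
      refine adj_le ((le_adj _ _).trans (le_adj _ _)) ?_
      rintro _ ⟨l', rfl⟩
      rw [hTa l']
      exact sum_mem fun l _ => mul_mem (le_adj _ _ (hTκ _ _)) (subset_adj _ _ ⟨l, rfl⟩)
  · have hle : LinearMap.range (mat g y * T).mulVecLin ≤ LinearMap.range (mat g y).mulVecLin := by
      rintro _ ⟨v, rfl⟩
      refine ⟨T.mulVec v, ?_⟩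
      rw [Matrix.mulVecLin_apply, Matrix.mulVecLin_apply, Matrix.mulVec_mulVec]
    constructor
    · intro hsp
      have hr : (mat g y * T).rank = c := by
        refine le_antisymm ((Matrix.rank_mul_le_left _ _).trans (H.rk y hy).le) ?_
        rw [← H.rk y hy]
        refine Submodule.finrank_mono ?_
        rintro _ ⟨b, rfl⟩
        obtain ⟨b', h1, h2⟩ := hsp b
        refine ⟨fun l => b' (e l), ?_⟩
        rw [Matrix.mulVecLin_apply, Matrix.mulVecLin_apply, ← Matrix.mulVec_mulVec, hker b' h1, h2]
      rw [← hS y] at hr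
      obtain ⟨I, N, hIN⟩ := exists_det_ne hr
      exact ⟨I, N, hIN⟩
    · rintro ⟨I, N, hIN⟩ b
      have h1 := le_rank (Q := (Matrix.of fun i l => aeval y (∑ l', C (T l' l) * g i l') :
        Matrix (Fin m) Λ ℂ)) hIN
      rw [hS y, ← H.rk y hy] at h1
      have h2 := Submodule.eq_of_le_of_finrank_le hle h1
      have h3 : (mat g y).mulVec b ∈ LinearMap.range (mat g y * T).mulVecLin := by
        rw [h2]
        exact ⟨b, rfl⟩
      obtain ⟨v, hv⟩ := h3
      refine ⟨T.mulVec v, ?_, ?_⟩
      · rw [Matrix.mulVec_mulVec, hXT, Matrix.zero_mulVec]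
      · rw [Matrix.mulVec_mulVec]
        exact hv

end Pool.Agent.VRB
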