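import Pool.Agent.VRB.Link
import Pool.Agent.VRB.Red
import Pool.Agent.VRB.Letters
import Pool.Agent.VRC.Swap

/-! Zero sets of sections of vector bundles, module Core: invariant correspondences act on
differences of independent generic points as rational numbers. -/

set_option autoImplicit false

open scoped LinearAlgebra.Projectivization
open MvPolynomial

namespace Pool.Agent.VRB

open Pool.Agent.VGS (Fl adj clo Coef)
open Pool.Agent.VCI
open Pool.Agent.VRC (cone TrLe exists_swap)

variable {n : ℕ}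

/-- the sum of the conjugates of a fixed point -/
private theorem orb_of_fix {E : Fl} {p : PN n} (h : ∀ σ ∈ VGS.Fix E, act σ p = p) :
    Orb E p = Finsupp.single p 1 := by
  classical
  unfold Orb
  have h2 : {q' | ∃ σ ∈ VGS.Fix E, act σ p = q'} = {p} := by
    ext q'
    constructor
    · rintro ⟨σ, hσ, rfl⟩
      exact h σ hσ
    · intro h1
      exact ⟨1, one_mem _, by rw [act_one, Set.mem_singleton_iff.1 h1]⟩
  rw [h2]
  ext x
  rw [sumSet_apply (Set.finite_singleton _), Finsupp.single_apply]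
  simp only [Set.mem_singleton_iff, eq_comm]

/-- a form at a representative -/
private theorem aeval_rep_mk {z : Fin n → ℂ} (hz : z ≠ 0) : ∃ b : ℂ, b ≠ 0 ∧
    (∀ i, (Projectivization.mk ℂ z hz : PN n).rep i = b * z i) ∧
    ∀ (G : MvPolynomial (Fin n) ℂ) (e : ℕ), G.IsHomogeneous e →
      aeval (Projectivization.mk ℂ z hz : PN n).rep G = b ^ e * aeval z G := by
  obtain ⟨b, hb⟩ := Projectivization.exists_smul_eq_mk_rep ℂ z hz
  have h1 : ∀ i, (Projectivization.mk ℂ z hz : PN n).rep i = (b : ℂ) * z i := by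
    intro i
    rw [← hb]
    rfl
  exact ⟨b, b.ne_zero, h1, fun G e hG => aeval_scale hG h1⟩

section Lin

variable [NeZero n] {s m L c : ℕ} {k K : Fl} {h : Fin s → MvPolynomial (Fin n) ℂ}
  {g : Fin m → Fin L → MvPolynomial (Fin n) ℂ} {a : Fin L → ℂ} {d : Fin (s + m) → ℕ}

omit [NeZero n] in
/-- the field of definition is countable -/
theorem LinB.cK (H : LinB c k h g a K d) : Countable K := by
  have hk := H.ck
  have h1 : Countable (Set.range a) := (Set.countable_range _).to_subtype
  rw [H.hK]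
  exact VGS.countable_adj _ _

omit [NeZero n] in
theorem LinB.le (H : LinB c k h g a K d) : k ≤ K := by
  rw [H.hK]
  exact VGS.le_adj _ _

omit [NeZero n] in
/-- the equations are defined over `K` -/
theorem LinB.coefK (H : LinB c k h g a K d) (i : Fin (s + m)) : Coef K (eqs h g a i) := by
  refine Fin.addCases (fun j => ?_) (fun j => ?_) i
  · intro e
    unfold eqs
    rw [Fin.append_left]
    exact H.le (H.coefh j e)
  · intro e
    unfold eqs
    rw [Fin.append_right, coeff_sum]
    refine sum_mem fun l _ => ?_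
    rw [coeff_C_mul]
    refine mul_mem ?_ (H.le (H.coefg j l e))
    rw [H.hK]
    exact VGS.subset_adj _ _ ⟨l, rfl⟩

/-- a point of `X` at which the values of the sections are not independent of those at the generic
point `p` is `p` -/
theorem LinB.eq_of_par (H : LinB c k h g a K d) {p : PN n} (hp : p ∈ Gen K (eqs h g a))
    {w : Fin n → ℂ} (hw : w ∈ cone (eqs h g a)) (hsp : ¬ Sp2 g p.rep w) : mkP w = p := by
  have h1 := (H.sep p hp w hw).resolve_right hsp
  obtain ⟨j, hj⟩ := Function.ne_iff.1 p.rep_nonzero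
  have hj' : p.rep j ≠ 0 := hj
  rw [mkP_eq hw.1]
  conv_rhs => rw [← p.mk_rep]
  refine mk_eq_mk_of_mul (a := w j / p.rep j) hw.1 p.rep_nonzero fun l => ?_
  have h2 := h1 l j
  field_simp
  exact h2

/-- **The main step**: invariant correspondences act on differences of generic points as rational
numbers. -/
theorem core (H : LinB c k h g a K d) {α : PN n → Cy n}
    (hα : ∀ p ∈ Gen K (eqs h g a), ∀ q ∈ (α p).support, q ∈ ciS (eqs h g a))
    (hσ : ∀ σ ∈ VGS.Fix K, ∀ p ∈ Gen K (eqs h g a), α (act σ p) = actC σ (α p)) {p q : PN n}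
    (hp : p ∈ Gen K (eqs h g a)) (hq : q ∈ Gen (clo (adjP K p)) (eqs h g a)) :
    ∃ β : ℚ, α p - α q - β • (Finsupp.single p 1 - Finsupp.single q 1) ∈
      ratQ (eqs h g a) := by
  classical
  have hKc : Countable K := H.cK
  obtain ⟨sw, hsw, hswp, hswq⟩ := exists_swap H.hom hKc H.coefK H.conj hp hq
  -- a normalised vector
  obtain ⟨z, hz, i₀, hzi, hpz⟩ := exists_nrm p
  have hzF : ∀ i, aeval z (eqs h g a i) = 0 := by
    have h1 : Projectivization.mk ℂ z hz ∈ ciS (eqs h g a) := hpz ▸ hp.1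
    exact (mem_surf_mk H.hom hz).1 h1
  have hzc : z ∈ cone (eqs h g a) := ⟨hz, hzF⟩
  have hpz' : Projectivization.mk ℂ z hz ∈ Gen K (eqs h g a) := hpz ▸ hp
  obtain ⟨Λ, hΛ, A, S, HL, hE, -, hfull⟩ := lt_of H hz hzi hpz'
  have hE' : adj K (Set.range z) = adjP K p := by rw [hpz, adjP_mk hz hzi]
  have hk' : adj k (Set.range z) = adjP k p := by rw [hpz, adjP_mk hz hzi]
  have hEc : Countable (adjP K p) := inferInstance
  obtain ⟨b, hb0, hb, hbe⟩ := aeval_rep_mk hz
  rw [← hpz] at hb hbe
  have hsp : ∀ y, Sp2 g p.rep y → Sp2 g z y := by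
    intro y hy b₁
    obtain ⟨b₂, h1, h2⟩ := hy b₁
    refine ⟨b₂, ?_, h2⟩
    funext i
    have h3 := congrFun h1 i
    have h4 : (mat g p.rep).mulVec b₂ i = b ^ d (Fin.natAdd s i) * (mat g z).mulVec b₂ i := by
      simp only [mat, Matrix.mulVec, dotProduct, Matrix.of_apply, Finset.mul_sum]
      refine Finset.sum_congr rfl fun l _ => ?_
      rw [hbe _ _ (H.homg i l)]
      ring
    rw [h4] at h3
    exact (mul_eq_zero.1 h3).resolve_left (pow_ne_zero _ hb0)
  -- the submodule
  let δ : Cy n := Finsupp.single p 1 - Finsupp.single q 1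
  let T : Cy n →ₗ[ℚ] Cy n := LinearMap.id - actC sw
  let W : Submodule ℚ (Cy n) := (ratQ (eqs h g a) ⊔ Submodule.span ℚ {δ}).comap T
  have hT : ∀ y, T y = y - actC sw y := fun y => rfl
  have hδ : δ ∈ ratQ (eqs h g a) ⊔ Submodule.span ℚ {δ} :=
    Submodule.mem_sup_right (Submodule.mem_span_singleton_self _)
  have memW : ∀ y, y - actC sw y ∈ ratQ (eqs h g a) ⊔ Submodule.span ℚ {δ} → y ∈ W :=
    fun y hy => hy
  have hpW : Finsupp.single p 1 ∈ W := by
    refine memW _ ?_
    rw [actC_single, hswp]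
    exact hδ
  have hrat : ratQ (eqs h g a) ≤ W := by
    intro y hy
    refine memW _ ?_
    exact Submodule.mem_sup_left ((ratQ _).sub_mem hy (actC_ratQ H.hom H.coefK hsw hy))
  -- the conjugates of `p`
  have hOp : Orb (adjP K p) p = Finsupp.single p 1 :=
    orb_of_fix fun σ hσ => (mem_Fix_adjP.1 hσ).2
  -- `sw * sw` is an automorphism over `K(p)`
  have hsw2 : sw * sw ∈ VGS.Fix (adjP K p) :=
    mem_Fix_adjP.2 ⟨(VGS.Fix K).mul_mem hsw hsw, by rw [act_mul, hswp, hswq]⟩
  -- the points of the reduction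
  have hgood : ∀ (w : Fin n → ℂ) (i : Fin n), w i = 1 → w ∈ cone (eqs h g a) →
      (∀ j, w j ∈ clo (adjP K p)) → TrLe (adjP k p) c w → Orb (adjP K p) (mkP w) ∈ W := by
    intro w i hwi hw hwE htr
    by_cases hpar : Sp2 g p.rep w
    swap
    · rw [H.eq_of_par hp hw hpar, hOp]
      exact hpW
    · obtain ⟨e, e', b₁, b₂, he, hlink⟩ := rc_link H hp hq hsw hswp hswq hwi hw hwE htr hpar
      have hwO : Over (clo (adjP K p)) (mkP w) := by
        rw [mkP_eq hw.1, over_mk hw.1 hwi]
        exact hwE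
      have hO2 : actC sw (actC sw (Orb (adjP K p) (mkP w))) = Orb (adjP K p) (mkP w) := by
        rw [← actC_mul]
        exact actC_Orb hwO hsw2
      generalize Orb (adjP K p) (mkP w) = O at *
      have hlink' := actC_ratQ H.hom H.coefK hsw hlink
      rw [map_sub, map_sub, map_add, map_smul, map_smul, map_smul, map_smul, hO2, actC_single,
        actC_single, hswp, hswq] at hlink'
      have h3 := (ratQ _).sub_mem hlink hlink'
      have hpos : (e : ℚ) + e' ≠ 0 := by positivity
      have h4 : (e : ℚ) • O + (b₁ : ℚ) • Finsupp.single p 1 - (e' : ℚ) • actC sw O -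
          (b₂ : ℚ) • Finsupp.single q 1 - ((e : ℚ) • actC sw O + (b₁ : ℚ) • Finsupp.single q 1 -
          (e' : ℚ) • O - (b₂ : ℚ) • Finsupp.single p 1) =
          ((e : ℚ) + e') • T O + ((b₁ : ℚ) + b₂) • δ := by
        rw [hT]
        simp only [δ]
        module
      rw [h4] at h3
      refine memW _ ?_
      rw [← hT]
      have h5 : T O = ((e : ℚ) + e')⁻¹ • (((e : ℚ) + e') • T O + ((b₁ : ℚ) + b₂) • δ) -
          (((e : ℚ) + e')⁻¹ * ((b₁ : ℚ) + b₂)) • δ := by
        rw [smul_add, smul_smul, smul_smul, inv_mul_cancel₀ hpos, one_smul, add_sub_cancel_right]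
      rw [h5]
      exact Submodule.sub_mem _ (Submodule.mem_sup_left (Submodule.smul_mem _ _ h3))
        (Submodule.smul_mem _ _ hδ)
  have hbad : ∀ (w : Fin n → ℂ), w ∈ cone (eqs h g a) → ¬ Full c S w →
      Orb (adjP K p) (mkP w) ∈ W := by
    intro w hw hnf
    rw [H.eq_of_par hp hw fun h1 => hnf ((hfull w hw).1 (hsp w h1)), hOp]
    exact hpW
  -- the support of `α p`
  have hαp : ∀ τ ∈ VGS.Fix (adjP K p), actC τ (α p) = α p := by
    intro τ hτ
    rw [← hσ τ (mem_Fix_adjP.1 hτ).1 p hp, (mem_Fix_adjP.1 hτ).2]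
  have hover : ∀ x ∈ (α p).support, Over (clo (adjP K p)) x := by
    intro x hx
    apply over_clo_of_finite
    refine ((α p).support.finite_toSet).subset ?_
    rintro x' ⟨τ, hτ, rfl⟩
    rw [Finset.mem_coe, Finsupp.mem_support_iff, ← hαp τ hτ, actC_apply, act_inv_act]
    exact Finsupp.mem_support_iff.1 hx
  have hαW : α p ∈ W := by
    refine (Submodule.span_le.2 ?_) (mem_span_orb _ (α p) hαp hover)
    rintro y ⟨x, hx, rfl⟩
    obtain ⟨v, hv, i₁, hvi, hxv⟩ := exists_nrm x
    have hvF : v ∈ cone (eqs h g a) := by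
      refine ⟨hv, (mem_surf_mk H.hom hv).1 ?_⟩
      rw [← hxv]
      exact hα p hp x hx
    have hvE : ∀ j, v j ∈ clo (adjP K p) := by
      have h1 := hover x hx
      rwa [hxv, over_mk hv hvi] at h1
    have hred := red HL (q := v) hvi hvF (by rw [hE, hE']; exact hvE)
    rw [hE, hE', mkP_eq hv, ← hxv] at hred
    refine (sup_le hrat (Submodule.span_le.2 ?_)) hred
    rintro _ ⟨w, i, hwi, hw, hwE, rfl, hcase⟩
    rcases hcase with h1 | h1
    · exact hgood w i hwi hw hwE (hk' ▸ h1)
    · exact hbad w hw h1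
  have h6 : α p - α q ∈ ratQ (eqs h g a) ⊔ Submodule.span ℚ {δ} := by
    have h7 : T (α p) ∈ ratQ (eqs h g a) ⊔ Submodule.span ℚ {δ} := hαW
    rwa [hT, ← hσ sw hsw p hp, hswp] at h7
  obtain ⟨y, hy, v, hv, hyv⟩ := Submodule.mem_sup.1 h6
  obtain ⟨β, rfl⟩ := Submodule.mem_span_singleton.1 hv
  refine ⟨β, ?_⟩
  rw [← hyv, add_sub_cancel_right]
  exact hy

end Lin

end Pool.Agent.VRB
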