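import Pool.Agent.VRB.Inst

/-! The main theorem for zero sets of sections of vector bundles. -/

set_option autoImplicit false

open scoped LinearAlgebra.Projectivization
open MvPolynomial

namespace Pool.Agent.VRB

open Pool.Agent.Chow0 (IsChowForm IsLink)
open Pool.Agent.VGS
open Pool.Agent.VCI hiding veryGen IsAct EffCorr ActsByScalar IsGenericPoint effT effT_tau TZ tau
  tauC CoefE mem_TZ inst_move inst_mu tz_mono tz_act pres exists_genericPoint
open Pool.Agent.VRC (cone IsIrr IsRC IsSmooth Sfc0 Sfc HForm tau tauC TZ inst_move inst_mu tz_mono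
  tz_act IsGenericPoint HasForm EffCorr ActsByScalar veryGen IsAct exists_ground countable_bot cfs
  coefE_of toW_cycS_eff support_sub_smul sfc0_of exists_loc_fin exists_hform ncone_of effT_isT2
  effT_tau CoefE effT scalars_rat pres mem_TZ tauC_single exists_genericPoint)

section Ground

variable {n s m L : ℕ} {h : Fin s → MvPolynomial (Fin n) ℂ}
  {g : Fin m → Fin L → MvPolynomial (Fin n) ℂ} {a : Fin L → ℂ}

theorem countable_base : Countable (base h g) := by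
  have h0 : Countable (⊥ : Fl) := countable_bot
  have h1 : Countable ((Set.range fun jm : Fin s × (Fin n →₀ ℕ) => coeff jm.2 (h jm.1)) ∪
    Set.range fun il : (Fin m × Fin L) × (Fin n →₀ ℕ) =>
      coeff il.2 (g il.1.1 il.1.2) : Set ℂ) :=
    ((Set.countable_range _).union (Set.countable_range _)).to_subtype
  exact countable_adj ⊥ _

theorem coef_h {k : Fl} (hk : base h g ≤ k) (j : Fin s) : Coef k (h j) := fun m =>
  hk (subset_adj _ _ (Or.inl ⟨(j, m), rfl⟩))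

theorem coef_g {k : Fl} (hk : base h g ≤ k) (i : Fin m) (l : Fin L) : Coef k (g i l) :=
  fun m => hk (subset_adj _ _ (Or.inr ⟨((i, l), m), rfl⟩))

theorem coef_eqs {k : Fl} (hk : base h g ≤ k) (i : Fin (s + m)) :
    Coef (adj k (Set.range a)) (eqs h g a i) := by
  refine Fin.addCases (fun j => ?_) (fun i => ?_) i
  · rw [eqs, Fin.append_left]
    exact (coef_h hk j).mono (le_adj _ _)
  · rw [eqs, Fin.append_right]
    intro m
    rw [coeff_sum]
    refine sum_mem fun l _ => ?_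
    rw [coeff_C_mul]
    exact mul_mem (subset_adj _ _ ⟨l, rfl⟩) (le_adj _ _ (coef_g hk i l m))

theorem hom_eqs {e : Fin s → ℕ} {d : Fin m → ℕ} (he : ∀ j, (h j).IsHomogeneous (e j))
    (hd : ∀ i l, (g i l).IsHomogeneous (d i)) (i : Fin (s + m)) :
    (eqs h g a i).IsHomogeneous (Fin.append e d i) := by
  refine Fin.addCases (fun j => ?_) (fun i => ?_) i
  · rw [eqs, Fin.append_left, Fin.append_left]
    exact he j
  · rw [eqs, Fin.append_right, Fin.append_right]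
    refine IsHomogeneous.sum _ _ _ fun l _ => ?_
    have h1 := (isHomogeneous_C (Fin n) (a l)).mul (hd i l)
    rwa [zero_add] at h1

end Ground

variable {r s m L c : ℕ} {h : Fin s → MvPolynomial (Fin (r + 3)) ℂ}
  {g : Fin m → Fin L → MvPolynomial (Fin (r + 3)) ℂ} {a : Fin L → ℂ}
  {d : Fin (s + m) → ℕ} {k K : Fl}

/-- nilpotence for the Chow group with rational coefficients -/
theorem nilS (H : Hyp c h g a d k K) (ω : HForm (eqs h g a) (clo K))
    (hne : ∃ p ∈ Gen K (eqs h g a), ∃ D₁ D₂ : Derivation ℤ ℂ ℂ, Kills K D₁ ∧ Kills K D₂ ∧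
      tau ω D₁ D₂ p ≠ 0) (T : Finset ℂ) (hT : ∀ x ∈ T, x ∈ clo K) :
    ∃ N : ℕ, 0 < N ∧ ∀ x : Fin N → Module.End ℚ (Cy (r + 3) ⧸ ratQ (eqs h g a)),
      (∀ i, ∃ α : PN (r + 3) → Cy (r + 3),
        (∀ p ∈ Gen K (eqs h g a), α p ∈ TZ K (eqs h g a) (clo K)) ∧
        (∀ σ ∈ VGS.Fix (adj K T), ∀ p ∈ Gen K (eqs h g a), α (act σ p) = actC σ (α p)) ∧
        ∀ p ∈ Gen K (eqs h g a),
          x i ((ratQ (eqs h g a)).mkQ (Finsupp.single p (1 : ℚ))) =
            (ratQ (eqs h g a)).mkQ (α p)) →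
      ∀ p ∈ ciS (eqs h g a), ∀ q ∈ ciS (eqs h g a), (List.ofFn x).prod
        ((ratQ (eqs h g a)).mkQ (Finsupp.single p (1 : ℚ)) -
          (ratQ (eqs h g a)).mkQ (Finsupp.single q (1 : ℚ))) = 0 := by
  obtain ⟨N, hN0, hN⟩ := Sys.nil_fin (sysB H ω hne) T hT
  exact ⟨N, hN0, fun x hx p hp q hq => hN x hx _ (Submodule.subset_span ⟨p, hp, q, hq, rfl⟩)⟩

/-- **The main theorem.** -/
theorem mainB {r s m L c : ℕ} (h : Fin s → MvPolynomial (Fin (r + 3)) ℂ)
    (g : Fin m → Fin L → MvPolynomial (Fin (r + 3)) ℂ) (a : Fin L → ℂ) (e : Fin s → ℕ)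
    (d : Fin m → ℕ) (he : ∀ j, (h j).IsHomogeneous (e j))
    (hd : ∀ i l, (g i l).IsHomogeneous (d i)) (hY : IsIrr h) (hRC : IsRC h)
    (ha : AlgebraicIndependent (base h g) a)
    (hrk : ∀ z ∈ cone (eqs h g a), (mat g z).rank = c)
    (htan : ∀ z ∈ cone (eqs h g a), TanLe h (c + 3) z) (hsep : Separates (eqs h g a) g)
    (hXs : IsSmooth (eqs h g a)) (hXi : IsIrr (eqs h g a))
    (Ω : Type) [Field Ω] [Algebra ℂ Ω] [IsAlgClosed Ω] (ξ : Fin (r + 3) → Ω)
    (hξ : IsGenericPoint (eqs h g a) ξ) (hform : HasForm (eqs h g a) ξ)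
    (n : ℕ) (w w' : Fin n → ℕ) (Γ : ∀ i, EffCorr (eqs h g a) ξ (w i))
    (Γ' : ∀ i, EffCorr (eqs h g a) ξ (w' i)) (μ : Fin n → ℂ)
    (hm : ∀ i, ActsByScalar (eqs h g a) (Γ i) (Γ' i) (μ i)) :
    ∃ (D : ℕ → MvPolynomial (Fin (r + 3)) ℂ) (q : Fin n → ℚ) (N : ℕ)
      (Ψ : Fin n → Module.End ℚ (CHQ (ciS (eqs h g a)))),
      (∀ j, (∃ e, (D j).IsHomogeneous e) ∧ ∃ p ∈ ciS (eqs h g a), aeval p.rep (D j) ≠ 0) ∧
      (∀ i, μ i = q i) ∧ (∀ i, IsAct (Γ i) (Γ' i) (veryGen (eqs h g a) D) (Ψ i)) ∧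
      (∀ i, ∀ Ψ', IsAct (Γ i) (Γ' i) (veryGen (eqs h g a) D) Ψ' → Ψ' = Ψ i) ∧
      WordsZero Ψ q N := by
  classical
  obtain ⟨S₁, hS₁⟩ := exists_loc_fin hXs
  obtain ⟨S₂, hS₂⟩ := exists_hform hξ hform
  -- the ground field
  obtain ⟨S, hS⟩ : ∃ S : Finset ℂ, S = Finset.univ.biUnion fun i => cfs (Γ i) ∪ cfs (Γ' i) :=
    ⟨_, rfl⟩
  have hbc : Countable (base h g) := countable_base
  obtain ⟨k, hk, hkc, hbk, hind, hSk'⟩ := exists_ground (base h g) ha (S₁ ∪ S₂ ∪ S)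
  obtain ⟨K, hK⟩ : ∃ K : Fl, K = adj k (Set.range a) := ⟨_, rfl⟩
  rw [← hK] at hSk'
  have hrc : Countable (Set.range a) := (Set.countable_range _).to_subtype
  have hKc : Countable K := by
    rw [hK]
    infer_instance
  have hSk₁ : ∀ x ∈ S₁, x ∈ clo K := fun x hx =>
    hSk' x (Finset.mem_union_left _ (Finset.mem_union_left _ hx))
  have hSk₂ : ∀ x ∈ S₂, x ∈ clo K := fun x hx =>
    hSk' x (Finset.mem_union_left _ (Finset.mem_union_right _ hx))
  have hSk : ∀ x ∈ S, x ∈ clo K := fun x hx => hSk' x (Finset.mem_union_right _ hx)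
  have hFK : ∀ i, Coef K (eqs h g a i) := fun i => by
    rw [hK]
    exact coef_eqs hbk i
  have hkK : k ≤ K := by
    rw [hK]
    exact le_adj _ _
  have hF : ∀ i, (eqs h g a i).IsHomogeneous (Fin.append e d i) := hom_eqs he hd
  have hX0 : Sfc0 (eqs h g a) (Fin.append e d) K := sfc0_of hF hXi hKc hFK (hS₁ K hSk₁)
  obtain ⟨ω, hω⟩ := hS₂ K _ hX0 hSk₂
  have hX : Sfc (eqs h g a) (Fin.append e d) K := ⟨hX0, ncone_of hX0 ω hω⟩
  have H : Hyp c h g a (Fin.append e d) k K := by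
    refine ⟨hY, hRC, hXi, hsep, hrk, htan, fun i l => ?_, hk, hkc, hbk, hind, hK, hX⟩
    rw [Fin.append_right]
    exact hd i l
  have hKK' : K ≤ adj K S := le_adj _ _
  have hK'c : adj K S ≤ clo K := adj_le (le_clo _) fun x hx => hSk x hx
  have hcf : ∀ i, ∀ x ∈ cfs (Γ i), x ∈ S := fun i x hx => by
    rw [hS]
    exact Finset.mem_biUnion.2 ⟨i, Finset.mem_univ i, Finset.mem_union_left _ hx⟩
  have hcf' : ∀ i, ∀ x ∈ cfs (Γ' i), x ∈ S := fun i x hx => by
    rw [hS]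
    exact Finset.mem_biUnion.2 ⟨i, Finset.mem_univ i, Finset.mem_union_right _ hx⟩
  have hcK : ∀ i, CoefE (adj K S) (Γ i) := fun i =>
    coefE_of _ fun x hx => subset_adj _ _ (hcf i x hx)
  have hcK' : ∀ i, CoefE (adj K S) (Γ' i) := fun i =>
    coefE_of _ fun x hx => subset_adj _ _ (hcf' i x hx)
  have hconj := hX.conj K hKc le_rfl
  have hT := fun i => effT_isT2 hX0 hξ hKK' hK'c (Γ i) (hcK i)
  have hT' := fun i => effT_isT2 hX0 hξ hKK' hK'c (Γ' i) (hcK' i)
  have htau := fun i => effT_tau hX0 hξ (Γ i) (Γ' i)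
    (fun m' => (hcK i m').mono hK'c) (fun m' => (hcK' i m').mono hK'c) (hm i)
  -- the scalars
  have hbot : clo (⊥ : Fl) ≤ K := by
    refine le_trans ?_ hkK
    rw [← hkc]
    exact clo_mono bot_le
  obtain ⟨q, hq⟩ := scalars_rat hX0 hbot (fun α s h1 h2 h3 => by
      obtain ⟨μ, hμ, -⟩ := s1_scalar H.lin hX0 le_rfl hX0 ω hω (α := α) (σ₀ := s)
        (fun p hp q hq => (h1 p hp q hq).1) h2 (fun y hy D₁ D₂ k₁ k₂ => h3 y hy D₁ D₂ k₁ k₂ ω)
      exact ⟨μ, hμ⟩) S hSk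
    (fun i p => effT (Γ i) p - effT (Γ' i) p) (fun i p hp x hx => by
      rcases Finset.mem_union.1 (Finsupp.support_sub hx) with h | h
      · exact (hT i).2.1 p hp x h
      · exact (hT' i).2.1 p hp x h)
    (fun i σ hσ p hp => by
      rw [map_sub, (hT i).2.2 σ hσ p hp, (hT' i).2.2 σ hσ p hp]) μ htau
  -- the open set
  obtain ⟨p₀, hp₀⟩ := hX.gen K hKc
  obtain ⟨D, hD, hDG⟩ := exists_enum K ⟨p₀, hp₀⟩ (fun p hp x hx => by
    obtain ⟨σ, hσ, h⟩ := hconj p hp x hx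
    exact ⟨σ, Fix_mono (le_clo _) hσ, h⟩)
  -- the endomorphisms
  have hmv : ∀ x ∈ ciS (eqs h g a), ∃ z : Cy (r + 3),
      (∀ p ∈ z.support, p ∈ Gen K (eqs h g a)) ∧
      Finsupp.single x 1 - z ∈ ratQ (eqs h g a) := fun x hx => inst_move hX K le_rfl hx
  have hG : Gen K (eqs h g a) ⊆ ciS (eqs h g a) := fun p hp => hp.1
  have hsup : ∀ i, ∀ p ∈ Gen K (eqs h g a), ∀ x ∈ (effT (Γ i) p - effT (Γ' i) p).support,
      x ∈ ciS (eqs h g a) := fun i p hp x hx => by
    rcases Finset.mem_union.1 (Finsupp.support_sub hx) with h | h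
    · exact (hT i).2.1 p hp x h
    · exact (hT' i).2.1 p hp x h
  choose E Ψ hE hΨ using fun i => exists_psi hG hmv (fun p => effT (Γ i) p - effT (Γ' i) p)
    (hsup i) (fun z hz hzG => pres hX hKK' hK'c (hsup i)
      (fun σ hσ p hp => by
        rw [map_sub, (hT i).2.2 σ hσ p hp, (hT' i).2.2 σ hσ p hp]) hz hzG)
  have hact : ∀ i, ∀ p : ciS (eqs h g a), p.1 ∈ Gen K (eqs h g a) →
      ∀ s s' : Multiset (ciS (eqs h g a)),
      IsChowForm (ciS (eqs h g a)) ((Γ i).at p.1.rep) s →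
      IsChowForm (ciS (eqs h g a)) ((Γ' i).at p.1.rep) s' →
      Ψ i (clS (Finsupp.single p 1)) = clS (cycS s) - clS (cycS s') := by
    intro i p hp s s' h1 h2
    apply jW_injective
    rw [hΨ, jW_clS, toW_single, hE i p.1 hp, map_sub, map_sub, jW_clS, jW_clS, toW_cycS_eff _ h1,
      toW_cycS_eff _ h2]
  obtain ⟨N, hN0, hN⟩ := nilS H ω hω S hSk
  refine ⟨D, q, N, Ψ, fun j => ⟨hD j, p₀, hp₀.1, (hDG ⟨p₀, hp₀.1⟩).2 hp₀ j⟩, hq, ?_, ?_, ?_⟩
  · intro i p hp
    have hp' := (hDG p).1 hp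
    obtain ⟨s, h1⟩ := (hT i).1 p.1 hp'
    obtain ⟨s', h2⟩ := (hT' i).1 p.1 hp'
    exact ⟨s, s', h1, h2, hact i p hp' s s' h1 h2⟩
  · intro i Ψ' h
    refine end_ext hG hmv fun p hp => ?_
    obtain ⟨s, s', h1, h2, h3⟩ := h p ((hDG p).2 hp)
    rw [h3, hact i p hp s s' h1 h2]
  · intro word z hz
    apply jW_injective
    rw [map_zero]
    have h1 : (List.ofFn fun j => Ψ (word j) - q (word j) • 1) =
        (List.ofFn word).map fun i => Ψ i - q i • 1 := by
      rw [List.map_ofFn]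
      rfl
    rw [h1, jW_prod (e := fun i => E i - q i • 1) (fun i c => by
      rw [LinearMap.sub_apply, LinearMap.smul_apply, LinearMap.sub_apply, LinearMap.smul_apply,
        map_sub, map_smul, hΨ]
      rfl)]
    have h2 : ((List.ofFn word).map fun i => E i - q i • 1) =
        List.ofFn fun j => E (word j) - q (word j) • 1 := by
      rw [List.map_ofFn]
      rfl
    rw [h2]
    refine deg_zero_mem (N := LinearMap.ker
      (List.ofFn fun j => E (word j) - q (word j) • (1 : Module.End ℚ _)).prod) hz ?_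
    intro p hp x hx
    refine hN _ (fun j => ?_) p hp x hx
    refine ⟨fun p => (effT (Γ (word j)) p - effT (Γ' (word j)) p) -
      q (word j) • (Finsupp.single p (1 : ℚ) : Cy (r + 3)), fun p hp => ?_, fun σ hσ p hp => ?_,
      fun p hp => ?_⟩
    · refine mem_TZ.2 ⟨support_sub_smul ((hT (word j)).2.1 p hp) ((hT' (word j)).2.1 p hp)
        (fun x hx => ?_) _, fun ω' D₁ D₂ h1 h2 => ?_⟩
      · rw [Finset.mem_singleton.1 (Finsupp.support_single_subset hx)]
        exact hp.1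
      · rw [map_sub, map_smul, htau (word j) p hp D₁ D₂ h1 h2 ω', tauC_single, one_smul, hq,
          sub_eq_zero]
        rw [Algebra.smul_def]
        rfl
    · change (effT (Γ (word j)) (act σ p) - effT (Γ' (word j)) (act σ p)) -
        q (word j) • (Finsupp.single (act σ p) (1 : ℚ) : Cy (r + 3)) = VCI.actC σ _
      rw [(hT (word j)).2.2 σ hσ p hp, (hT' (word j)).2.2 σ hσ p hp, map_sub, map_sub,
        map_smul, VCI.actC_single]
    · beta_reduce
      rw [LinearMap.sub_apply, LinearMap.smul_apply, hE (word j) p hp, map_sub (VCI.ratQ (eqs h g a)).mkQ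
        (effT (Γ (word j)) p - effT (Γ' (word j)) p), map_smul]
      rfl

/-- there are generic points of the surface -/
theorem exists_pt {r s m L : ℕ} (h : Fin s → MvPolynomial (Fin (r + 3)) ℂ)
    (g : Fin m → Fin L → MvPolynomial (Fin (r + 3)) ℂ) (a : Fin L → ℂ) (e : Fin s → ℕ)
    (d : Fin m → ℕ)
    (he : ∀ j, (h j).IsHomogeneous (e j)) (hd : ∀ i l, (g i l).IsHomogeneous (d i))
    (hXs : IsSmooth (eqs h g a)) (hXi : IsIrr (eqs h g a)) :
    ∃ (Ω : Type) (_ : Field Ω) (_ : Algebra ℂ Ω) (_ : IsAlgClosed Ω) (ξ : Fin (r + 3) → Ω),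
      IsGenericPoint (eqs h g a) ξ := by
  classical
  obtain ⟨S₁, hS₁⟩ := exists_loc_fin hXs
  have hbc : Countable (base h g) := countable_base
  have hrc : Countable (Set.range a) := (Set.countable_range _).to_subtype
  have hSc : Countable (S₁ : Set ℂ) := inferInstance
  obtain ⟨K, hK⟩ : ∃ K : Fl, K = adj (adj (base h g) (Set.range a)) (S₁ : Set ℂ) := ⟨_, rfl⟩
  have hKc : Countable K := by
    rw [hK]
    infer_instance
  have hFK : ∀ i, Coef K (eqs h g a i) := fun i => by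
    rw [hK]
    exact (coef_eqs le_rfl i).mono (le_adj _ _)
  refine exists_genericPoint (sfc0_of (d := Fin.append e d) (hom_eqs he hd) hXi hKc hFK
    (hS₁ K fun x hx => ?_))
  rw [hK]
  exact le_clo _ (subset_adj _ _ hx)

end Pool.Agent.VRB
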