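import Pool.Agent.VRB.SDefs
import Pool.Agent.VRC.LinB

/-! Zero sets of sections of vector bundles: the equations. -/

set_option autoImplicit false

open scoped LinearAlgebra.Projectivization
open MvPolynomial

namespace Pool.Agent.VRB

open Pool.Agent.VGS (Fl adj clo Coef subset_adj)
open Pool.Agent.VCI
open Pool.Agent.VRC (cone)

variable {n s m L : ℕ}

theorem eqs_nat (h : Fin s → MvPolynomial (Fin n) ℂ) (g : Fin m → Fin L → MvPolynomial (Fin n) ℂ)
    (a : Fin L → ℂ) (i : Fin m) : eqs h g a (Fin.natAdd s i) = ∑ l, C (a l) * g i l := by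
  unfold eqs
  rw [Fin.append_right]

theorem eqs_cast (h : Fin s → MvPolynomial (Fin n) ℂ) (g : Fin m → Fin L → MvPolynomial (Fin n) ℂ)
    (a : Fin L → ℂ) (j : Fin s) : eqs h g a (Fin.castAdd m j) = h j := by
  unfold eqs
  rw [Fin.append_left]

/-- the value of the `i`-th equation -/
theorem aeval_eqs_nat (h : Fin s → MvPolynomial (Fin n) ℂ)
    (g : Fin m → Fin L → MvPolynomial (Fin n) ℂ) (a : Fin L → ℂ) (z : Fin n → ℂ) (i : Fin m) :
    aeval z (eqs h g a (Fin.natAdd s i)) = ∑ l, mat g z i l * a l := by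
  rw [eqs_nat, map_sum]
  refine Finset.sum_congr rfl fun l _ => ?_
  rw [map_mul, aeval_C, mul_comm]
  rfl

/-- a point of `X` is a point of `h = 0` where the section `a` is zero -/
theorem cone_eqs {h : Fin s → MvPolynomial (Fin n) ℂ} {g : Fin m → Fin L → MvPolynomial (Fin n) ℂ}
    {a : Fin L → ℂ} {z : Fin n → ℂ} (hz : z ∈ cone (eqs h g a)) :
    z ∈ cone h ∧ ∀ i, ∑ l, mat g z i l * a l = 0 := by
  refine ⟨⟨hz.1, fun j => ?_⟩, fun i => ?_⟩
  · have h1 := hz.2 (Fin.castAdd m j)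
    rw [eqs_cast] at h1
    exact h1
  · rw [← aeval_eqs_nat h]
    exact hz.2 (Fin.natAdd s i)

theorem mat_apply (g : Fin m → Fin L → MvPolynomial (Fin n) ℂ) (z : Fin n → ℂ) (i : Fin m)
    (l : Fin L) : mat g z i l = aeval z (g i l) := rfl

/-- the coefficients of the `h j` are in the ground field -/
theorem base_coefh {h : Fin s → MvPolynomial (Fin n) ℂ}
    {g : Fin m → Fin L → MvPolynomial (Fin n) ℂ} {k : Fl} (hb : base h g ≤ k) (j : Fin s) :
    Coef k (h j) := fun t => hb (by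
  unfold base
  exact subset_adj _ _ (Or.inl ⟨(j, t), rfl⟩))

/-- the coefficients of the `g i l` are in the ground field -/
theorem base_coefg {h : Fin s → MvPolynomial (Fin n) ℂ}
    {g : Fin m → Fin L → MvPolynomial (Fin n) ℂ} {k : Fl} (hb : base h g ≤ k) (i : Fin m)
    (l : Fin L) : Coef k (g i l) := fun t => hb (by
  unfold base
  exact subset_adj _ _ (Or.inr ⟨((i, l), t), rfl⟩))

/-- the matrix of the values at a multiple of `z` -/
theorem mat_scale {g : Fin m → Fin L → MvPolynomial (Fin n) ℂ} {e : Fin m → ℕ}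
    (homg : ∀ i l, (g i l).IsHomogeneous (e i)) {z w : Fin n → ℂ} {μ : ℂ}
    (hw : ∀ j, w j = μ * z j) (i : Fin m) (l : Fin L) : mat g w i l = μ ^ e i * mat g z i l := by
  rw [mat_apply, mat_apply, aeval_scale (homg i l) hw]

theorem mulVec_scale {g : Fin m → Fin L → MvPolynomial (Fin n) ℂ} {e : Fin m → ℕ}
    (homg : ∀ i l, (g i l).IsHomogeneous (e i)) {z w : Fin n → ℂ} {μ : ℂ}
    (hw : ∀ j, w j = μ * z j) (b : Fin L → ℂ) (i : Fin m) :
    (mat g w).mulVec b i = μ ^ e i * (mat g z).mulVec b i := by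
  simp only [Matrix.mulVec, dotProduct]
  rw [Finset.mul_sum]
  refine Finset.sum_congr rfl fun l _ => ?_
  rw [mat_scale homg hw, mul_assoc]

/-- `Sp2` does not depend on the representatives -/
theorem Sp2.scale {g : Fin m → Fin L → MvPolynomial (Fin n) ℂ} {e : Fin m → ℕ}
    (homg : ∀ i l, (g i l).IsHomogeneous (e i)) {z w y x : Fin n → ℂ} {μ ν : ℂ} (hμ : μ ≠ 0)
    (hw : ∀ j, w j = μ * z j) (hx : ∀ j, x j = ν * y j) (h : Sp2 g w y) : Sp2 g z x := by
  intro b
  obtain ⟨b', h1, h2⟩ := h b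
  refine ⟨b', ?_, ?_⟩
  · funext i
    have h3 := congrFun h1 i
    rw [mulVec_scale homg hw, Pi.zero_apply] at h3
    exact (mul_eq_zero.1 h3).resolve_left (pow_ne_zero _ hμ)
  · funext i
    rw [mulVec_scale homg hx, mulVec_scale homg hx, h2]

end Pool.Agent.VRB
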