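import Pool.Agent.VRB.Count
import Pool.Agent.VRC.LinE

/-! Zero sets of sections of vector bundles: a rational curve through two independent generic
points of the surface. -/

set_option autoImplicit false

open scoped LinearAlgebra.Projectivization
open MvPolynomial

namespace Pool.Agent.VRB

open Pool.Agent.VGS (Fl adj clo Coef Kills IsPl Sp le_adj le_clo subset_adj adj_le clo_mono ai_mono
  ai_iff ai_sum mem_clo mem_clo_adj adj_adj ai_clo clo_clo aeval_mem exists_algInd clo_adj_le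
  aeval_fix coef_iff ai_mono_clo)
open Pool.Agent.VCI
open Pool.Agent.VRC (cone IsIrr IsRC TrLe IsBiHom exists_move_fam bihom_zero cone_act tan_act
  exists_scale map_curve aeval_mul_curve curve_descent rel_curve gen_rel)

variable {n s m L c : ℕ}

/-- the sections take independent values at two independent generic points -/
theorem not_par {K : Fl} {h : Fin s → MvPolynomial (Fin n) ℂ}
    {g : Fin m → Fin L → MvPolynomial (Fin n) ℂ} {a : Fin L → ℂ} {e : Fin m → ℕ}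
    (homg : ∀ i l, (g i l).IsHomogeneous (e i))
    (hsep : ∀ p ∈ Gen K (eqs h g a), ∀ y ∈ cone (eqs h g a),
      (∀ i j, y i * p.rep j = y j * p.rep i) ∨ Sp2 g p.rep y)
    {z z' : Fin n → ℂ} (hz : z ≠ 0) {i₀ i₀' : Fin n} (hzi : z i₀ = 1) (hzi' : z' i₀' = 1)
    (hp : (Projectivization.mk ℂ z hz : PN n) ∈ Gen K (eqs h g a))
    (hz' : z' ∈ cone (eqs h g a)) {j l : Fin n}
    (hjl : AlgebraicIndependent (adj K (Set.range z)) ![z' j, z' l]) : Sp2 g z z' := by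
  obtain ⟨μ, hμ⟩ := Projectivization.exists_smul_eq_mk_rep ℂ z hz
  have h1 : ∀ j, (Projectivization.mk ℂ z hz : PN n).rep j = (μ : ℂ) * z j := by
    intro j
    rw [← hμ]
    rfl
  rcases hsep _ hp z' hz' with h2 | h2
  · exfalso
    have h3 : ∀ j, z' j = z' i₀ * z j := by
      intro j
      have h4 := h2 j i₀
      rw [h1, h1, hzi, mul_one] at h4
      have h5 : (μ : ℂ) ≠ 0 := μ.ne_zero
      refine mul_right_cancel₀ h5 ?_
      rw [h4]
      ring
    have hzK : ∀ j, z j ∈ adj K (Set.range z) := fun j => subset_adj _ _ ⟨j, rfl⟩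
    have h4 : z' i₀ ∈ adj K (Set.range z) := by
      have h5 := h3 i₀'
      rw [hzi'] at h5
      have h6 : z i₀' ≠ 0 := by
        intro h7
        rw [h7, mul_zero] at h5
        exact one_ne_zero h5
      have h8 : z' i₀ = 1 / z i₀' := by
        rw [eq_div_iff h6]
        exact h5.symm
      rw [h8]
      exact div_mem (one_mem _) (hzK _)
    have h5 : z' j ∈ adj K (Set.range z) := by
      rw [h3]
      exact mul_mem h4 (hzK j)
    have h6 := hjl.transcendental 0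
    apply h6
    exact isAlgebraic_algebraMap (⟨z' j, h5⟩ : adj K (Set.range z))
  · exact h2.scale homg μ.ne_zero h1 (ν := 1) (fun j => (one_mul _).symm)

/-- **The rational curve.** -/
theorem lin_rc {r : ℕ} {k K : Fl} {h : Fin s → MvPolynomial (Fin (r + 3)) ℂ}
    {g : Fin m → Fin L → MvPolynomial (Fin (r + 3)) ℂ} {a : Fin L → ℂ} {d : Fin (s + m) → ℕ}
    (hirr : IsIrr h) (hrc : IsRC h) (hom : ∀ i, (eqs h g a i).IsHomogeneous (d i))
    (homg : ∀ i l, (g i l).IsHomogeneous (d (Fin.natAdd s i))) (ck : Countable k)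
    (hh : ∀ j, Coef k (h j)) (hg : ∀ i l, Coef k (g i l)) (hai : AlgebraicIndependent k a)
    (hK : K = adj k (Set.range a)) (hrk : ∀ z ∈ cone (eqs h g a), (mat g z).rank = c)
    (htrd : ∀ z ∈ cone (eqs h g a), ∀ i, z i = 1 → TrLe k (c + 2) z)
    (htan : ∀ z ∈ cone (eqs h g a), TanLe h (c + 3) z)
    (hsep : ∀ p ∈ Gen K (eqs h g a), ∀ y ∈ cone (eqs h g a),
      (∀ i j, y i * p.rep j = y j * p.rep i) ∨ Sp2 g p.rep y)
    (z z' : Fin (r + 3) → ℂ) (hz : z ≠ 0) (hz' : z' ≠ 0) (i i' : Fin (r + 3)) (hzi : z i = 1)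
    (hzi' : z' i' = 1) (hp : (Projectivization.mk ℂ z hz : PN (r + 3)) ∈ Gen K (eqs h g a))
    (hp' : (Projectivization.mk ℂ z' hz' : PN (r + 3)) ∈
      Gen (clo (adj K (Set.range z))) (eqs h g a)) :
    ∃ φ : Fin (r + 3) → Polynomial ℂ,
      (∀ j l, (φ j).coeff l ∈ clo (adj k (Set.range z ∪ Set.range z'))) ∧
      (∀ j, (φ j).eval 0 = z j) ∧ (∀ j, (φ j).eval 1 = z' j) ∧
      ∀ (P : MvPolynomial (Fin (r + 3)) ℂ) (e : ℕ), P.IsHomogeneous e → Coef k P →
        aeval z P = 0 → aeval φ P = 0 := by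
  classical
  have homh : ∀ j, ∃ e, (h j).IsHomogeneous e := fun j => ⟨_, by
    have h1 := hom (Fin.castAdd m j)
    rw [eqs_cast] at h1
    exact h1⟩
  have hzX : z ∈ cone (eqs h g a) := ⟨hz, (mem_surf_mk hom hz).1 hp.1⟩
  have hzX' : z' ∈ cone (eqs h g a) := ⟨hz', (mem_surf_mk hom hz').1 hp'.1⟩
  have hzh := (cone_eqs hzX).1
  have hzh' := (cone_eqs hzX').1
  obtain ⟨j, l, hjl⟩ := gen_coord hom hz hzi hp
  obtain ⟨j', l', hjl'⟩ := gen_coord hom hz' hzi' hp'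
  replace hjl' := ai_clo.1 hjl'
  obtain ⟨⟨f, hf, hfz⟩, ⟨f', hf'⟩⟩ := count_two hg hai hK hzX hzX' hjl hjl'
    (hrk z hzX) (hrk z' hzX') (not_par homg hsep hz hzi hzi' hp hzX' hjl') (htrd z hzX i hzi)
    (htrd z' hzX' i' hzi')
  -- move the pair
  obtain ⟨B, ⟨y, hy, y', hy', hB⟩, hcurve⟩ := hrc
  obtain ⟨k₁, hk₁⟩ : ∃ k₁ : Fl, k₁ = clo (adj k (Set.range fun m => coeff m B)) := ⟨_, rfl⟩
  have hc₁ : Countable k₁ := by
    have h1 : Countable (Set.range fun m => coeff m B) := (Set.countable_range _).to_subtype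
    rw [hk₁]
    infer_instance
  have hkk₁ : clo k ≤ k₁ := by
    rw [hk₁]
    exact clo_mono (le_adj _ _)
  have hkk : k ≤ k₁ := (le_clo k).trans hkk₁
  have hB₁ : Coef k₁ B := fun m => by
    rw [hk₁]
    exact le_clo _ (subset_adj _ _ ⟨m, rfl⟩)
  have hpair : AlgebraicIndependent k (Sum.elim (fun b => z (f b)) (fun b => z' (f' b))) := by
    rw [ai_sum]
    refine ⟨hf, ai_mono (adj_le (le_adj _ _) ?_) hf'⟩
    rintro _ ⟨b, rfl⟩
    exact subset_adj _ _ ⟨f b, rfl⟩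
  obtain ⟨τ, hτ, hτf⟩ := exists_move_fam k hpair k₁ hkk₁
  have hτk : τ ∈ VGS.Fix k := VGS.Fix_mono (le_clo _) hτ
  have hτf2 : AlgebraicIndependent k₁ (Sum.elim (fun b => τ (z (f b))) (fun b => τ (z' (f' b)))) := by
    have h1 : (fun b => τ (Sum.elim (fun b => z (f b)) (fun b => z' (f' b)) b)) =
        Sum.elim (fun b => τ (z (f b))) (fun b => τ (z' (f' b))) := by
      funext o
      rcases o with o | o <;> rfl
    rw [← h1]
    exact hτf
  rw [ai_sum] at hτf2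
  have hle : adj k₁ (Set.range fun i => τ (z i)) ≤
      clo (adj k₁ (Set.range fun b => τ (z (f b)))) := by
    refine adj_le ((le_adj _ _).trans (le_clo _)) ?_
    rintro _ ⟨i, rfl⟩
    refine clo_map (L := adj k (Set.range fun b => z (f b))) ?_ _ (hfz i)
    refine adj_map (fun x hx => ?_) ?_
    · rw [hτk x hx]
      exact hkk hx
    · rintro _ ⟨b, rfl⟩
      exact subset_adj _ _ ⟨b, rfl⟩
  have hrel : ∀ (P : MvPolynomial (Fin (r + 3) ⊕ Fin (r + 3)) ℂ) (e e' : ℕ), IsBiHom P e e' → Coef k₁ P →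
      aeval (Sum.elim (fun i => τ (z i)) (fun i => τ (z' i))) P = 0 →
        aeval (Sum.elim y y') P = 0 := by
    intro P e e' hP hPk h0
    exact bihom_zero hirr homh k₁ (fun j => (hh j).mono hkk) (cone_act hh hτk hzh)
      (cone_act hh hτk hzh') (i := i) (i' := i') (by rw [hzi, map_one]) (by rw [hzi', map_one])
      f f' hτf2.1 (ai_mono_clo hle hτf2.2) (tan_act hh hτk (htan z hzX))
      (tan_act hh hτk (htan z' hzX')) hP hPk h0 y hy y' hy'
  obtain ⟨α, β, hα, hβ, hαβ⟩ := exists_scale hB₁ hB hrel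
  have hcs : ∀ {x : Fin (r + 3) → ℂ} {c : ℂ}, c ≠ 0 → x ∈ cone h → (fun i => c * x i) ∈ cone h := by
    intro x c hc hx
    refine ⟨fun h0 => hx.1 ?_, fun j => ?_⟩
    · funext i
      have h1 := congrFun h0 i
      exact (mul_eq_zero.1 h1).resolve_left hc
    · obtain ⟨e, he⟩ := homh j
      rw [aeval_scale he (w := x) (a := c) (fun _ => rfl), hx.2 j, mul_zero]
  obtain ⟨φ, hφh, hφ0, hφ1⟩ := hcurve _ (hcs hα (cone_act hh hτk hzh)) _
    (hcs hβ (cone_act hh hτk hzh')) hαβ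
  -- normalise and move back
  let μ : Polynomial ℂ := Polynomial.C α⁻¹ * (1 - Polynomial.X) + Polynomial.C β⁻¹ * Polynomial.X
  let φ₁ : Fin (r + 3) → Polynomial ℂ := fun j => (μ * φ j).map ((τ⁻¹ : ℂ ≃+* ℂ) : ℂ →+* ℂ)
  have hφ₁h : ∀ j, aeval φ₁ (h j) = 0 := by
    intro j
    obtain ⟨e, he⟩ := homh j
    have h1 := map_curve (hh j) (inv_mem hτk) (fun j => μ * φ j)
    rw [aeval_mul_curve he, hφh j, mul_zero, Polynomial.map_zero] at h1
    exact h1
  have hev : ∀ (q : Polynomial ℂ) (t : ℂ), τ⁻¹ t = t →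
      (q.map ((τ⁻¹ : ℂ ≃+* ℂ) : ℂ →+* ℂ)).eval t = τ⁻¹ (q.eval t) := by
    intro q t ht
    have h1 := Polynomial.eval_map_apply (p := q) (f := ((τ⁻¹ : ℂ ≃+* ℂ) : ℂ →+* ℂ)) t
    have h2 : ((τ⁻¹ : ℂ ≃+* ℂ) : ℂ →+* ℂ) t = t := ht
    rw [h2] at h1
    exact h1
  have hφ₁0 : ∀ j, (φ₁ j).eval 0 = z j := by
    intro j
    change ((μ * φ j).map ((τ⁻¹ : ℂ ≃+* ℂ) : ℂ →+* ℂ)).eval 0 = z j
    rw [hev _ _ (map_zero _), Polynomial.eval_mul, hφ0]
    have h1 : μ.eval 0 = α⁻¹ := by simp [μ]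
    rw [h1, inv_mul_cancel_left₀ hα]
    exact τ.symm_apply_apply _
  have hφ₁1 : ∀ j, (φ₁ j).eval 1 = z' j := by
    intro j
    change ((μ * φ j).map ((τ⁻¹ : ℂ ≃+* ℂ) : ℂ →+* ℂ)).eval 1 = z' j
    rw [hev _ _ (map_one _), Polynomial.eval_mul, hφ1]
    have h1 : μ.eval 1 = β⁻¹ := by simp [μ]
    rw [h1, inv_mul_cancel_left₀ hβ]
    exact τ.symm_apply_apply _
  have hkL : k ≤ clo (adj k (Set.range z ∪ Set.range z')) := (le_adj _ _).trans (le_clo _)
  obtain ⟨ψ, hψc, hψh, hψ0, hψ1⟩ := curve_descent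
    (L := clo (adj k (Set.range z ∪ Set.range z'))) (clo_clo _) (fun j => (hh j).mono hkL)
    (z := z) (z' := z') (fun j => le_clo _ (subset_adj _ _ (Or.inl ⟨j, rfl⟩)))
    (fun j => le_clo _ (subset_adj _ _ (Or.inr ⟨j, rfl⟩))) φ₁ hφ₁h hφ₁0 hφ₁1
  refine ⟨ψ, hψc, hψ0, hψ1, fun P e hP hPk h0 => ?_⟩
  refine rel_curve hψh (i := i) (fun h1 => ?_) ?_
  · have h2 := hψ0 i
    rw [h1, Polynomial.eval_zero, hzi] at h2
    exact zero_ne_one h2
  · exact gen_rel hirr homh k hh hzh hzi f hf (htan z hzX) hP (hPk.mono (le_clo _)) h0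

end Pool.Agent.VRB
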