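import Pool.Agent.VRB.SDefs

/-!
# Minors: existence of nonzero minors of a matrix of given rank
-/

set_option autoImplicit false

open MvPolynomial

namespace Pool.Agent.VRB

section MnrB

/-- a family of vectors whose span has dimension `c` contains `c` independent vectors -/
theorem exists_li_of_finrank {ι V : Type*} [Finite ι] [AddCommGroup V] [Module ℂ V] {c : ℕ}
    {v : ι → V} (h : Module.finrank ℂ (Submodule.span ℂ (Set.range v)) = c) :
    ∃ f : Fin c → ι, LinearIndependent ℂ fun j => v (f j) := by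
  obtain ⟨κ, a, ha, hs, hl⟩ := exists_linearIndependent' ℂ v
  have : Finite κ := Finite.of_injective a ha
  have := Fintype.ofFinite κ
  have hc : Fintype.card κ = c := by
    have h1 := linearIndependent_iff_card_eq_finrank_span.1 hl
    rw [Set.finrank, hs, h] at h1
    exact h1
  subst hc
  let e := Fintype.equivFin κ
  exact ⟨fun j => a (e.symm j), hl.comp e.symm e.symm.injective⟩

/-- a matrix of rank `c` has a nonzero minor of size `c` -/
theorem exists_det_ne {ι κ : Type*} [Finite ι] [Fintype κ] {c : ℕ} {Q : Matrix ι κ ℂ}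
    (h : Q.rank = c) :
    ∃ (I : Fin c → ι) (N : Fin c → κ), (Matrix.of fun i j => Q (I i) (N j)).det ≠ 0 := by
  classical
  rw [Matrix.rank_eq_finrank_span_row] at h
  obtain ⟨I, hI⟩ := exists_li_of_finrank h
  have hR : (Matrix.of fun (i : Fin c) l => Q (I i) l).rank = c := by
    have h1 : LinearIndependent ℂ (Matrix.of fun (i : Fin c) l => Q (I i) l).row := hI
    rw [h1.rank_matrix, Fintype.card_fin]
  rw [Matrix.rank_eq_finrank_span_cols] at hR
  obtain ⟨N, hN⟩ := exists_li_of_finrank hR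
  refine ⟨I, N, ?_⟩
  have h2 : LinearIndependent ℂ (Matrix.of fun i j => Q (I i) (N j)).col := hN
  have h3 := Matrix.linearIndependent_cols_iff_isUnit.1 h2
  exact ((Matrix.isUnit_iff_isUnit_det _).1 h3).ne_zero

/-- a matrix of rank `c` -/
theorem exists_mnr {m c L : ℕ} {Q : Matrix (Fin m) (Fin L) ℂ} (h : Q.rank = c) :
    ∃ (I : Fin c → Fin m) (N : Fin c → Fin L), (Matrix.of fun i j => Q (I i) (N j)).det ≠ 0 :=
  exists_det_ne h

theorem mnr_zero {m c L : ℕ} {Q : Matrix (Fin m) (Fin L) ℂ} (h : Q.rank ≤ c)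
    (I : Fin (c + 1) → Fin m) (N : Fin (c + 1) → Fin L) :
    (Matrix.of fun i j => Q (I i) (N j)).det = 0 := by
  by_contra h0
  have h1 := Matrix.linearIndependent_rows_of_det_ne_zero h0
  have h2 := h1.rank_matrix
  rw [Fintype.card_fin] at h2
  have h3 : (Q.submatrix I N).rank ≤ Q.rank := Matrix.rank_submatrix_le _ _ _
  have h4 : (Q.submatrix I N) = Matrix.of fun i j => Q (I i) (N j) := rfl
  rw [h4, h2] at h3
  omega

/-- two matrices of rank `c` with independent values: `2 c` columns of the double matrix are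
independent -/
theorem exists_mnr_two {m c L : ℕ} {Q Q' : Matrix (Fin m) (Fin L) ℂ} (h : Q.rank = c)
    (h' : Q'.rank = c) (hsp : ∀ b : Fin L → ℂ, ∃ b' : Fin L → ℂ, Q.mulVec b' = 0 ∧
      Q'.mulVec b' = Q'.mulVec b) :
    ∃ (I : Fin (2 * c) → Fin m ⊕ Fin m) (N : Fin (2 * c) → Fin L),
      (Matrix.of fun i j => Sum.elim Q Q' (I i) (N j) : Matrix (Fin (2 * c)) _ ℂ).det ≠ 0 := by
  refine exists_det_ne (Q := (Matrix.of fun i l => Sum.elim Q Q' i l :
    Matrix (Fin m ⊕ Fin m) (Fin L) ℂ)) ?_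
  set R : Matrix (Fin m ⊕ Fin m) (Fin L) ℂ := Matrix.of fun i l => Sum.elim Q Q' i l with hR
  have hm : ∀ b, R.mulVec b = Sum.elim (Q.mulVec b) (Q'.mulVec b) := by
    intro b
    funext i
    rcases i with i | i <;> rfl
  have e : LinearMap.range R.mulVecLin ≃ₗ[ℂ]
      (LinearMap.range Q.mulVecLin × LinearMap.range Q'.mulVecLin) := by
    refine LinearEquiv.ofBijective
      (LinearMap.prod
        ((LinearMap.funLeft ℂ ℂ (Sum.inl : Fin m → Fin m ⊕ Fin m)).restrict
          (p := LinearMap.range R.mulVecLin) (q := LinearMap.range Q.mulVecLin) ?_)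
        ((LinearMap.funLeft ℂ ℂ (Sum.inr : Fin m → Fin m ⊕ Fin m)).restrict
          (p := LinearMap.range R.mulVecLin) (q := LinearMap.range Q'.mulVecLin) ?_)) ⟨?_, ?_⟩
    · rintro _ ⟨b, rfl⟩
      refine ⟨b, ?_⟩
      rw [Matrix.mulVecLin_apply, Matrix.mulVecLin_apply, hm]
      rfl
    · rintro _ ⟨b, rfl⟩
      refine ⟨b, ?_⟩
      rw [Matrix.mulVecLin_apply, Matrix.mulVecLin_apply, hm]
      rfl
    · rintro ⟨x, hx⟩ ⟨y, hy⟩ hxy
      have h1 := congrArg (fun t => (t.1 : Fin m → ℂ)) hxy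
      have h2 := congrArg (fun t => (t.2 : Fin m → ℂ)) hxy
      apply Subtype.ext
      funext i
      rcases i with i | i
      · exact congrFun h1 i
      · exact congrFun h2 i
    · rintro ⟨⟨_, b₁, rfl⟩, ⟨_, b₂, rfl⟩⟩
      obtain ⟨b', hb', hb''⟩ := hsp (b₂ - b₁)
      refine ⟨⟨R.mulVec (b₁ + b'), b₁ + b', rfl⟩, ?_⟩
      refine Prod.ext (Subtype.ext ?_) (Subtype.ext ?_)
      · change (fun i => R.mulVec (b₁ + b') (Sum.inl i)) = Q.mulVec b₁
        rw [hm]
        funext i
        rw [Sum.elim_inl, Matrix.mulVec_add, hb', add_zero]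
      · change (fun i => R.mulVec (b₁ + b') (Sum.inr i)) = Q'.mulVec b₂
        rw [hm]
        funext i
        rw [Sum.elim_inr, Matrix.mulVec_add, hb'', Matrix.mulVec_sub, add_sub_cancel]
  have h1 := e.finrank_eq
  rw [Module.finrank_prod] at h1
  have h2 : R.rank = Q.rank + Q'.rank := h1
  rw [h2, h, h', two_mul]

/-- independence is symmetric -/
theorem Sp2.symm {n m L : ℕ} {g : Fin m → Fin L → MvPolynomial (Fin n) ℂ} {z y : Fin n → ℂ}
    (h : Sp2 g z y) : Sp2 g y z := by
  intro b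
  obtain ⟨b', h1, h2⟩ := h b
  refine ⟨b - b', ?_, ?_⟩
  · rw [Matrix.mulVec_sub, h2, sub_self]
  · rw [Matrix.mulVec_sub, h1, sub_zero]

end MnrB

end Pool.Agent.VRB
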