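import Pool.Agent.VRC.LinInd
import Pool.Agent.VRB.MnrB

/-! Zero sets of sections of vector bundles: the transcendence degree of a generic point of the
surface. -/

set_option autoImplicit false

open scoped LinearAlgebra.Projectivization
open MvPolynomial

namespace Pool.Agent.VRB

open Pool.Agent.VGS (Fl adj clo Coef Kills IsPl Sp le_adj le_clo subset_adj adj_le clo_mono ai_mono
  ai_iff ai_sum ai_pair mem_clo mem_clo_adj adj_adj ai_clo)
open Pool.Agent.VCI
open Pool.Agent.VRC (cone IsIrr IsRC IsSmooth TrLe Rel Rel2 IsBiHom Sfc0 Sfc HForm tau tauC)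

variable {r s m L c : ℕ} {k K : Fl} {h : Fin s → MvPolynomial (Fin (r + 3)) ℂ}
  {g : Fin m → Fin L → MvPolynomial (Fin (r + 3)) ℂ} {a : Fin L → ℂ} {d : Fin (s + m) → ℕ}

private theorem lt_eqs_left (j : Fin s) : eqs h g a (Fin.castAdd m j) = h j :=
  Fin.append_left _ _ _

private theorem cone_lt {z : Fin (r + 3) → ℂ} (hz : z ∈ cone (eqs h g a)) (j : Fin s) :
    aeval z (h j) = 0 := by
  have h1 := hz.2 (Fin.castAdd m j)
  rwa [lt_eqs_left] at h1

/-- Euler's formula -/
private theorem lt_euler {n e : ℕ} {G : MvPolynomial (Fin n) ℂ} (hG : G.IsHomogeneous e)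
    {z : Fin n → ℂ} (hz : aeval z G = 0) : dFc G z z = 0 := by
  have h1 := hG.sum_X_mul_pderiv
  have h2 := congrArg (aeval z) h1
  rw [map_sum] at h2
  simp only [map_mul, aeval_X] at h2
  rw [dFc, h2, map_nsmul, hz, smul_zero]

theorem lin_trd (htan : ∀ z ∈ cone (eqs h g a), TanLe h (c + 3) z) (ck : Countable k)
    (homh : ∀ j, (h j).IsHomogeneous (d (Fin.castAdd m j))) (hk : ∀ j, Coef k (h j))
    {z : Fin (r + 3) → ℂ} (hz : z ∈ cone (eqs h g a)) {i : Fin (r + 3)} (hzi : z i = 1) :
    TrLe k (c + 2) z := by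
  intro f hf
  have key : ∀ a : Fin (c + 3), ∃ D : Derivation ℤ ℂ ℂ, Kills k D ∧ D (z (f a)) = 1 ∧
      ∀ b, b ≠ a → D (z (f b)) = 0 := by
    intro a
    have h1 : AlgebraicIndependent k (Sum.elim (fun b : {b : Fin (c + 3) // b ≠ a} => z (f b.1))
        fun _ : Unit => z (f a)) := by
      have h2 := hf.comp (fun s : {b : Fin (c + 3) // b ≠ a} ⊕ Unit =>
        Sum.elim (fun b => b.1) (fun _ => a) s) (by
          rintro (⟨b, hb⟩ | ⟨⟩) (⟨c, hc⟩ | ⟨⟩) h
          · have h' : b = c := h
            subst h'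
            rfl
          · exact absurd h hb
          · exact absurd h.symm hc
          · rfl)
      have h3 : (Sum.elim (fun b : {b : Fin (c + 3) // b ≠ a} => z (f b.1)) fun _ : Unit => z (f a)) =
          (fun b => z (f b)) ∘ (fun s : {b : Fin (c + 3) // b ≠ a} ⊕ Unit =>
            Sum.elim (fun b => b.1) (fun _ => a) s) := by
        funext s
        rcases s with s | s <;> rfl
      rw [h3]
      exact h2
    obtain ⟨-, h2⟩ := ai_sum.1 h1
    rw [algebraicIndependent_unique_type_iff] at h2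
    set M : Fl := adj k (Set.range fun b : {b : Fin (c + 3) // b ≠ a} => z (f b.1)) with hM
    have hcM : Countable M := by
      have h3 : Countable (Set.range fun b : {b : Fin (c + 3) // b ≠ a} => z (f b.1)) :=
        (Set.countable_range _).to_subtype
      exact VGS.countable_adj _ _
    have h3 : z (f a) ∉ clo M := fun h => h2 (mem_clo.1 h)
    obtain ⟨y, hy⟩ := VGS.gp_exists_far (adj M {z (f a)}) (fun _ : Fin 4 => 0)
    have hy' : y ∉ clo (adj M {z (f a)}) := fun h => hy (clo_mono (le_adj _ _) h)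
    obtain ⟨D, hD, hD1, -⟩ := VGS.exists_kills M (ai_pair.2 ⟨h3, hy'⟩) 1 0
    refine ⟨D, fun x hx => hD x (le_adj _ _ hx), hD1, fun b hb => hD _ ?_⟩
    exact subset_adj _ _ ⟨⟨b, hb⟩, rfl⟩
  choose D hDK hD1 hD0 using key
  refine htan z hz (Fin.cons z fun a l => D a (z l)) ?_ ?_
  · intro a s
    refine Fin.cases ?_ (fun a => ?_) a
    · rw [Fin.cons_zero]
      exact lt_euler (homh s) (cone_lt hz s)
    · rw [Fin.cons_succ]
      have h1 := mu_der_aeval (hk s) (hDK a) z
      rw [(cone_lt hz s), map_zero] at h1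
      rw [h1, dFc]
      exact Finset.sum_congr rfl fun l _ => mul_comm _ _
  · rw [Fintype.linearIndependent_iff]
    intro g hg
    have h0 : ∀ l, g 0 * z l + ∑ a : Fin (c + 3), g a.succ * D a (z l) = 0 := by
      intro l
      have h1 := congrFun hg l
      rw [Finset.sum_apply, Fin.sum_univ_succ] at h1
      exact h1
    have h1 : g 0 = 0 := by
      have h2 := h0 i
      rw [hzi, mul_one, Finset.sum_eq_zero, add_zero] at h2
      · exact h2
      · intro a _
        rw [Derivation.map_one_eq_zero, mul_zero]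
    intro a
    refine Fin.cases h1 (fun a => ?_) a
    have h2 := h0 (f a)
    rw [h1, zero_mul, zero_add, Finset.sum_eq_single a] at h2
    · rwa [hD1, mul_one] at h2
    · intro b _ hb
      rw [hD0 b a (Ne.symm hb), mul_zero]
    · intro h
      exact absurd (Finset.mem_univ a) h

private theorem lt_det_mem {c : ℕ} {κ : Fl} {A : Matrix (Fin c) (Fin c) ℂ}
    (hA : ∀ i j, A i j ∈ κ) : A.det ∈ κ := by
  rw [Matrix.det_apply]
  refine sum_mem fun σ _ => ?_
  rw [Units.smul_def]
  exact zsmul_mem (prod_mem fun i _ => hA _ _) _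

private theorem lt_solve {m c : ℕ} {Λ : Type} {X : Fin m → Λ → ℂ} {I : Fin c → Fin m}
    {N : Fin c → Λ} (h : (Matrix.of fun i j => X (I i) (N j)).det ≠ 0) {κ : Fl}
    (hκ : ∀ i j, X (I i) (N j) ∈ κ) {x : Fin c → ℂ}
    (hx : ∀ i, ∑ j, X (I i) (N j) * x j ∈ κ) : ∀ j, x j ∈ κ := by
  classical
  set A : Matrix (Fin c) (Fin c) ℂ := Matrix.of fun i j => X (I i) (N j) with hA
  have h1 : A.adjugate.mulVec (A.mulVec x) = A.det • x := by
    rw [Matrix.mulVec_mulVec, Matrix.adjugate_mul, Matrix.smul_mulVec, Matrix.one_mulVec]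
  intro j
  have h2 : A.det * x j ∈ κ := by
    have h3 := congrFun h1 j
    rw [Pi.smul_apply, smul_eq_mul] at h3
    rw [← h3]
    change ∑ i, A.adjugate j i * ∑ j, X (I i) (N j) * x j ∈ κ
    refine sum_mem fun i _ => mul_mem ?_ (hx i)
    rw [Matrix.adjugate_apply]
    refine lt_det_mem fun a b => ?_
    rw [Matrix.updateRow_apply]
    split_ifs
    · rw [Pi.single_apply]
      split_ifs
      · exact one_mem _
      · exact zero_mem _
    · exact hκ _ _
  have h4 : x j = A.det * x j / A.det := by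
    rw [mul_comm, mul_div_assoc, div_self h, mul_one]
  rw [h4]
  exact div_mem h2 (lt_det_mem fun a b => hκ _ _)

/-- a generic point of `X` over `K = k(a)` has `c + 2` coordinates which are independent
over `k` -/
theorem lin_ind (hX : Sfc0 (eqs h g a) d K) (hbase : base h g ≤ k)
    (hrk : ∀ z ∈ cone (eqs h g a), (mat g z).rank = c) (hai : AlgebraicIndependent k a)
    (hK : K = adj k (Set.range a)) {z : Fin (r + 3) → ℂ} (hz : z ≠ 0) {i₀ : Fin (r + 3)}
    (hzi : z i₀ = 1)
    (hp : (Projectivization.mk ℂ z hz : PN (r + 3)) ∈ Gen K (eqs h g a)) :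
    ∃ f : Fin (c + 2) → Fin (r + 3), AlgebraicIndependent k fun b => z (f b) := by
  classical
  have hzF : z ∈ cone (eqs h g a) := ⟨hz, (mem_surf_mk hX.hom hz).1 hp.1⟩
  obtain ⟨j, l, hjl⟩ := gen_coord hX.hom hz hzi hp
  obtain ⟨I, N, hIN⟩ := exists_mnr (hrk z hzF)
  have hgk : ∀ i l, Coef k (g i l) := fun i l m =>
    hbase (subset_adj _ _ (Or.inr ⟨((i, l), m), rfl⟩))
  have hNinj : Function.Injective N := by
    intro j₁ j₂ hj
    by_contra hne
    exact hIN (Matrix.det_zero_of_column_eq hne fun i => by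
      rw [Matrix.of_apply, Matrix.of_apply, hj])
  set Λ₀ : Set (Fin L) := {x | x ∉ Set.range N} with hΛ
  set E : Fl := adj k (Set.range z ∪ a '' Λ₀) with hE
  have hzE : ∀ i, z i ∈ E := fun i => subset_adj _ _ (Or.inl ⟨i, rfl⟩)
  have hgE : ∀ i l, mat g z i l ∈ E := fun i l =>
    VGS.aeval_mem ((hgk i l).mono (le_adj _ _)) hzE
  have heq : ∀ i, ∑ l, a l * mat g z i l = 0 := by
    intro i
    have h2 := hzF.2 (Fin.natAdd s i)
    have h3 : eqs h g a (Fin.natAdd s i) = ∑ l, C (a l) * g i l := Fin.append_right _ _ _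
    rw [h3, map_sum] at h2
    rw [← h2]
    refine Finset.sum_congr rfl fun l _ => ?_
    rw [map_mul, aeval_C]
    rfl
  have hsol : ∀ j, a (N j) ∈ E := by
    refine lt_solve (X := fun i l => mat g z i l) (I := I) (N := N) hIN
      (fun i j => hgE _ _) (x := fun j => a (N j)) fun i => ?_
    have h4 := heq (I i)
    rw [← Finset.sum_filter_add_sum_filter_not Finset.univ (fun l => l ∈ Set.range N)] at h4
    have h5 : ∑ l ∈ Finset.univ.filter (fun l => l ∈ Set.range N), a l * mat g z (I i) l =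
        ∑ j, mat g z (I i) (N j) * a (N j) := by
      have h6 : Finset.univ.filter (fun l => l ∈ Set.range N) = Finset.univ.image N := by
        ext l
        simp
      rw [h6, Finset.sum_image fun x _ y _ hxy => hNinj hxy]
      exact Finset.sum_congr rfl fun j _ => mul_comm _ _
    rw [h5] at h4
    have h7 : ∑ j, mat g z (I i) (N j) * a (N j) =
        -∑ l ∈ Finset.univ.filter (fun l => ¬ l ∈ Set.range N), a l * mat g z (I i) l := by
      linear_combination h4
    change ∑ j, mat g z (I i) (N j) * a (N j) ∈ E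
    rw [h7]
    refine neg_mem (sum_mem fun l hl => mul_mem ?_ (hgE _ _))
    exact subset_adj _ _ (Or.inr ⟨l, (Finset.mem_filter.1 hl).2, rfl⟩)
  have hmem : ∀ x, a x ∈ E := by
    intro x
    by_cases hx : x ∈ Set.range N
    · obtain ⟨j, rfl⟩ := hx
      exact hsol j
    · exact subset_adj _ _ (Or.inr ⟨x, hx, rfl⟩)
  have hcard : c + Nat.card Λ₀ ≤ Nat.card (Fin L) := by
    let e : Fin c ⊕ Λ₀ → Fin L := Sum.elim N Subtype.val
    have he : Function.Injective e := by
      rintro (i | x) (i' | x') hxx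
      · exact congrArg Sum.inl (hNinj hxx)
      · exact absurd ⟨i, hxx⟩ x'.2
      · exact absurd ⟨i', hxx.symm⟩ x.2
      · exact congrArg Sum.inr (Subtype.ext hxx)
    have h6 := Nat.card_le_card_of_injective e he
    rwa [Nat.card_sum, Nat.card_fin] at h6
  obtain ⟨f, -, hf⟩ := VRC.count_ind (w := z) (A := a) hai (b := ![z j, z l])
    (by rw [← hK]; exact hjl)
    (fun x => by
      apply le_clo
      fin_cases x
      · exact subset_adj _ _ ⟨j, rfl⟩
      · exact subset_adj _ _ ⟨l, rfl⟩) Λ₀ (fun x => le_clo _ (hmem x)) (N := c + 2) (by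
      rw [Nat.card_fin] at hcard ⊢
      rw [Nat.card_fin]
      omega)
  exact ⟨f, hf⟩

end Pool.Agent.VRB
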