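import Pool.Agent.VRB.Mnr
import Pool.Agent.VRC.LtA

/-! Zero sets of sections of vector bundles: points with few independent coordinates; derivations,
count, conjugacy. -/

set_option autoImplicit false

open scoped LinearAlgebra.Projectivization
open MvPolynomial

namespace Pool.Agent.VRB

open Pool.Agent.VGS (Fl adj clo Coef Kills IsPl Sp le_adj le_clo subset_adj adj_le clo_mono ai_mono
  ai_iff ai_sum mem_clo mem_clo_adj adj_adj ai_clo ai_card coef_iff clo_adj_le mem_Fix_adj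
  ai_mono_clo)
open Pool.Agent.VCI
open Pool.Agent.VRC (cone TrLe Rel adj_mono' dFc_sum dFc_mul inR_symm inR_of_rel ai_of_inR trLe_of_rel
  kills_adj_set' symm_mem_adj)

variable {n : ℕ}

/-- the columns of a minor which is not zero are different -/
theorem mnr_inj {m c : ℕ} {Λ : Type} {S : Fin m → Λ → MvPolynomial (Fin n) ℂ} {I : Fin c → Fin m}
    {N : Fin c → Λ} {w : Fin n → ℂ} (h : mnr S I N w ≠ 0) : Function.Injective N := by
  intro j j' hj
  by_contra hne
  exact h (Matrix.det_zero_of_column_eq hne fun i => by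
    rw [Matrix.of_apply, Matrix.of_apply, hj])

theorem sum_split {c : ℕ} {Λ : Type} [Fintype Λ] [DecidableEq Λ] {N : Fin c → Λ}
    [DecidablePred fun l => l ∉ Set.range N] (hN : Function.Injective N) (f : Λ → ℂ) :
    ∑ l, f l = ∑ j, f (N j) + ∑ l ∈ Finset.univ.filter (fun l => l ∉ Set.range N), f l := by
  classical
  have h1 : Finset.univ.image N = Finset.univ.filter (fun l => ¬ l ∉ Set.range N) := by
    ext l
    simp
  have h2 : ∑ j, f (N j) = ∑ l ∈ Finset.univ.filter (fun l => ¬ l ∉ Set.range N), f l := by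
    rw [← h1, Finset.sum_image fun x _ y _ hxy => hN hxy]
  rw [h2, add_comm]
  exact (Finset.sum_filter_add_sum_filter_not _ _ _).symm

section Lt

variable {s m c : ℕ} {Λ : Type} [Fintype Λ] {κ : Fl} {A : Λ → ℂ}
  {S : Fin m → Λ → MvPolynomial (Fin n) ℂ} {d : Fin (s + m) → ℕ}
  {G : Fin (s + m) → MvPolynomial (Fin n) ℂ}

/-- the equation with letters at a point -/
theorem lt_sum (H : Lt c κ A S d G) {w : Fin n → ℂ} (hw : w ∈ cone G) (i : Fin m) :
    ∑ l, A l * aeval w (S i l) = 0 := by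
  have h0 := hw.2 (Fin.natAdd s i)
  rw [H.eq i, map_sum] at h0
  refine Eq.trans (Finset.sum_congr rfl fun l _ => ?_) h0
  rw [map_mul, algHom_C]
  rfl

/-- the equations for the letters of a minor -/
theorem lt_letter [DecidableEq Λ] {N : Fin c → Λ} [DecidablePred fun l => l ∉ Set.range N]
    (H : Lt c κ A S d G) {w : Fin n → ℂ} (hw : w ∈ cone G) (hN : Function.Injective N)
    (i : Fin m) :
    ∑ j, aeval w (S i (N j)) * A (N j) =
      -∑ l ∈ Finset.univ.filter (fun l => l ∉ Set.range N), A l * aeval w (S i l) := by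
  have h0 := lt_sum H hw i
  rw [sum_split hN] at h0
  have h1 : ∑ j, aeval w (S i (N j)) * A (N j) = ∑ j, A (N j) * aeval w (S i (N j)) :=
    Finset.sum_congr rfl fun j _ => mul_comm _ _
  rw [h1]
  exact eq_neg_of_add_eq_zero_left h0

/-- The count: exactly `c` coordinates are independent, and the other letters are independent over
them. -/
theorem lt_core (H : Lt c κ A S d G) {w : Fin n → ℂ} (hw : w ∈ cone G) (htr : TrLe κ c w)
    {I : Fin c → Fin m} {N : Fin c → Λ} (hS : mnr S I N w ≠ 0) :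
    ∃ f : Fin c → Fin n, (AlgebraicIndependent κ fun b => w (f b)) ∧
      (∀ j, w j ∈ clo (adj κ (Set.range fun b => w (f b)))) ∧
      AlgebraicIndependent (adj κ (Set.range fun b => w (f b)))
        (fun l : {l : Λ // l ∉ Set.range N} => A l) ∧
      ∀ j, w j ∈ clo (adj κ (Set.range A)) := by
  classical
  obtain ⟨e, f, he, hf, hsp⟩ := htr.basis
  have hinj : Function.Injective N := mnr_inj hS
  -- cardinalities
  have hcard : Nat.card Λ = c + Nat.card {l : Λ // l ∉ Set.range N} := by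
    rw [← Nat.card_congr (Equiv.sumCompl fun l => l ∈ Set.range N), Nat.card_sum,
      ← Nat.card_congr (Equiv.ofInjective N hinj), Nat.card_fin]
  -- the letters are algebraic over the coordinates and the other letters
  set y : Fin e ⊕ {l : Λ // l ∉ Set.range N} → ℂ :=
    Sum.elim (fun b => w (f b)) (fun l => A l) with hy
  have hS' : ∀ i l, aeval w (S i l) ∈ clo (adj κ (Set.range y)) := by
    intro i l
    have h1 : aeval w (S i l) ∈ clo (adj κ (Set.range fun b => w (f b))) :=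
      VGS.aeval_mem ((H.coefS i l).mono ((le_adj _ _).trans (le_clo _))) hsp
    refine clo_mono (adj_mono' ?_) h1
    rintro _ ⟨b, rfl⟩
    exact ⟨Sum.inl b, rfl⟩
  have hA' : ∀ l, l ∉ Set.range N → A l ∈ clo (adj κ (Set.range y)) := fun l hl =>
    le_clo _ (subset_adj _ _ ⟨Sum.inr ⟨l, hl⟩, rfl⟩)
  have hsolve : ∀ j, A (N j) ∈ clo (adj κ (Set.range y)) := by
    refine solve_mem (X := fun i l => aeval w (S i l)) (I := I) (N := N) hS
      (fun i j => hS' _ _) (x := fun j => A (N j)) fun i => ?_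
    have h1 := lt_letter H hw hinj (I i)
    beta_reduce
    rw [h1]
    exact neg_mem (sum_mem fun l hl => mul_mem (hA' l (Finset.mem_filter.1 hl).2) (hS' _ _))
  have hspan : ∀ l, A l ∈ clo (adj κ (Set.range y)) := by
    intro l
    by_cases hlr : l ∈ Set.range N
    · obtain ⟨j, rfl⟩ := hlr
      exact hsolve j
    · exact hA' l hlr
  have hce : c ≤ e := by
    have h1 := Pool.Agent.VCI.ai_le_card H.ai hspan
    rw [hcard, Nat.card_sum, Nat.card_fin] at h1
    omega
  obtain rfl : e = c := le_antisymm he hce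
  have hai : AlgebraicIndependent κ y := by
    refine ai_card H.ai ?_ hspan
    rw [hcard, Nat.card_sum, Nat.card_fin]
  refine ⟨f, hf, hsp, (ai_sum.1 hai).2, fun j => ?_⟩
  have h1 := ai_span H.ai (y := y) (by rw [hcard, Nat.card_sum, Nat.card_fin]) hspan
  refine clo_adj_le ((le_adj _ _).trans (le_clo _)) ?_ (hsp j)
  rintro _ ⟨b, rfl⟩
  exact h1 (Sum.inl b)

/-- For a point `w` of `X` over `clo κ(A)` with at most `c` independent coordinates at which a minor
of size `c` is not zero: a derivation over `κ` which is tangent to the hypersurfaces of the rows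
at `w` is zero on `w`. -/
theorem lt_der (H : Lt c κ A S d G) {w : Fin n → ℂ} {i₁ : Fin n} (hwi : w i₁ = 1)
    (hw : w ∈ cone G) (hwE : ∀ j, w j ∈ clo (adj κ (Set.range A))) (htr : TrLe κ c w)
    {I : Fin c → Fin m} {N : Fin c → Λ} (hS : mnr S I N w ≠ 0) {D : Derivation ℤ ℂ ℂ}
    (hD : Kills κ D) (hdF : ∀ i : Fin c, dFc (G (Fin.natAdd s (I i))) w (fun j => D (w j)) = 0) :
    ∀ j, D (w j) = 0 := by
  classical
  obtain ⟨f, hf, hsp, hM, -⟩ := lt_core H hw htr hS
  have hinj : Function.Injective N := mnr_inj hS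
  obtain ⟨D₁, hD₁, hD₁A⟩ := exists_kills_fam (clo (adj κ (Set.range fun b => w (f b))))
    (ai_clo.2 hM) (fun l => - D (A l))
  set D₀ : Derivation ℤ ℂ ℂ := D + D₁ with hD₀
  have h0 : ∀ x, D₀ x = D x + D₁ x := fun x => rfl
  have hκ : Kills κ D₀ := by
    intro x hx
    rw [h0, hD x hx, hD₁ x (le_clo _ (le_adj _ _ hx)), add_zero]
  have hw0 : ∀ j, D₀ (w j) = D (w j) := by
    intro j
    rw [h0, hD₁ _ (hsp j), add_zero]
  have hM0 : ∀ l, l ∉ Set.range N → D₀ (A l) = 0 := by
    intro l hl'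
    rw [h0, hD₁A ⟨l, hl'⟩, add_neg_cancel]
  have hl0 : ∀ j, D₀ (A (N j)) = 0 := by
    refine solve_zero (X := fun i l => aeval w (S i l)) (I := I) (N := N) hS
      (x := fun j => D₀ (A (N j))) fun i => ?_
    have h1 := congrArg D₀ (lt_sum H hw (I i))
    rw [map_zero, map_sum] at h1
    have h2 := hdF i
    rw [H.eq (I i), dFc_sum] at h2
    have h3 : ∀ l, D₀ (A l * aeval w (S (I i) l)) =
        dFc (C (A l) * S (I i) l) w (fun j => D (w j)) +
          D₀ (A l) * aeval w (S (I i) l) := by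
      intro l
      rw [D₀.leibniz, smul_eq_mul, smul_eq_mul, mu_der_aeval (H.coefS (I i) l) hκ w, dFc_mul]
      have h4 : dFc (C (A l)) w (fun j => D (w j)) = 0 := by
        unfold dFc
        refine Finset.sum_eq_zero fun j _ => ?_
        rw [pderiv_C, map_zero, mul_zero]
      have h5 : ∑ j, aeval w (pderiv j (S (I i) l)) * D₀ (w j) =
          dFc (S (I i) l) w fun j => D (w j) := by
        unfold dFc
        refine Finset.sum_congr rfl fun j _ => ?_
        rw [hw0, mul_comm]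
      rw [h4, h5, algHom_C]
      simp only [Algebra.algebraMap_self, RingHom.id_apply]
      ring
    rw [Finset.sum_congr rfl fun l _ => h3 l, Finset.sum_add_distrib, h2, zero_add,
      sum_split hinj] at h1
    have h6 : ∑ l ∈ Finset.univ.filter (fun l => l ∉ Set.range N),
        D₀ (A l) * aeval w (S (I i) l) = 0 :=
      Finset.sum_eq_zero fun l hl => by rw [hM0 l (Finset.mem_filter.1 hl).2, zero_mul]
    rw [h6, add_zero] at h1
    rw [← h1]
    exact Finset.sum_congr rfl fun j _ => mul_comm _ _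
  have hA : Kills (clo (adj κ (Set.range A))) D₀ := by
    refine DomAux.kills_clo (kills_adj_set' hκ ?_)
    rintro _ ⟨l, rfl⟩
    by_cases h1 : l ∈ Set.range N
    · obtain ⟨i, rfl⟩ := h1
      exact hl0 i
    · exact hM0 l h1
  intro j
  rw [← hw0, hA _ (hwE j)]

/-- such a point is defined over `clo κ(A)` -/
theorem lt_over (H : Lt c κ A S d G) {w : Fin n → ℂ} {i₁ : Fin n} (hwi : w i₁ = 1)
    (hw : w ∈ cone G) (htr : TrLe κ c w) (hS : Full c S w) :
    ∀ j, w j ∈ clo (adj κ (Set.range A)) := by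
  obtain ⟨I, N, hS⟩ := hS
  obtain ⟨f, hf, hsp, -, h⟩ := lt_core H hw htr hS
  exact h

/-- exactly `c` coordinates of such a point are independent over `κ` -/
theorem lt_trd (H : Lt c κ A S d G) {w : Fin n → ℂ} {i₁ : Fin n} (hwi : w i₁ = 1)
    (hw : w ∈ cone G) (hwE : ∀ j, w j ∈ clo (adj κ (Set.range A))) (htr : TrLe κ c w)
    (hS : Full c S w) :
    ∃ f : Fin c → Fin n, (AlgebraicIndependent κ fun b => w (f b)) ∧
      ∀ j, w j ∈ clo (adj κ (Set.range fun b => w (f b))) := by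
  obtain ⟨I, N, hS⟩ := hS
  obtain ⟨f, hf, hsp, -, -⟩ := lt_core H hw htr hS
  exact ⟨f, hf, hsp⟩

/-- such points with the same relations over `κ` are conjugate over `κ(A)` -/
theorem lt_conj (H : Lt c κ A S d G) [NeZero n] {w w₁ : Fin n → ℂ} {i i₁ : Fin n} (hwi : w i = 1)
    (hw₁i : w₁ i₁ = 1) (hw : w ∈ cone G) (hw₁ : w₁ ∈ cone G)
    (hwE : ∀ j, w j ∈ clo (adj κ (Set.range A))) (hw₁E : ∀ j, w₁ j ∈ clo (adj κ (Set.range A)))
    (htr : TrLe κ c w) (hrel : Rel κ w w₁) (hS : Full c S w₁) :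
    ∃ σ ∈ VGS.Fix (adj κ (Set.range A)), act σ (mkP w) = mkP w₁ := by
  classical
  have := H.cκ
  obtain ⟨I, N, hS₁⟩ := hS
  have hinj : Function.Injective N := mnr_inj hS₁
  obtain ⟨hw0, hin⟩ := inR_of_rel hw₁i hrel
  set v : Fin n → ℂ := fun j => (w i₁)⁻¹ * w j with hv
  have hvw : mkP v = (mkP w : PN n) := pr_mkP_mul (inv_ne_zero hw0) w
  have hvi : v i₁ = 1 := by
    rw [hv]
    exact inv_mul_cancel₀ hw0
  have hscale' : ∀ (P : MvPolynomial (Fin n) ℂ) (e : ℕ), P.IsHomogeneous e → aeval w P = 0 →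
      aeval v P = 0 := by
    intro P e hP h0
    rw [aeval_scale hP (a := (w i₁)⁻¹) (w := w) (fun j => rfl), h0, mul_zero]
  have hvG : v ∈ cone G := by
    refine ⟨fun h => ?_, fun a => hscale' _ _ (H.hom a) (hw.2 a)⟩
    have h1 := congrFun h i₁
    rw [hvi] at h1
    exact one_ne_zero h1
  have hvtr : TrLe κ c v := htr.scale i₁
  have hw₁tr : TrLe κ c w₁ := trLe_of_rel hw₁i htr hrel
  have hSv : mnr S I N v ≠ 0 := by
    intro h0
    rw [← aeval_mnrP] at h0
    exact hS₁ (by rw [← aeval_mnrP]; exact hin _ (coef_mnrP H.coefS I N) h0)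
  obtain ⟨f₁, hf₁, hsp₁, hM₁, -⟩ := lt_core H hw₁ hw₁tr hS₁
  obtain ⟨f, hf, hsp, hM, -⟩ := lt_core H hvG hvtr hSv
  have hvf₁ : AlgebraicIndependent κ fun b => v (f₁ b) := ai_of_inR hin hf₁
  have hspv : ∀ j, v j ∈ clo (adj κ (Set.range fun b => v (f₁ b))) := by
    have h1 := ai_span hvf₁ (y := fun b => v (f b)) le_rfl fun b => hsp _
    intro j
    refine clo_adj_le ((le_adj _ _).trans (le_clo _)) ?_ (hsp j)
    rintro _ ⟨b, rfl⟩
    exact h1 b
  have hin' : InR κ w₁ v := inR_symm hin hf₁ hspv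
  obtain ⟨σ₁, hσ₁, hσv⟩ := VGS.exists_fix κ v w₁ fun P hP => ⟨hin P hP, hin' P hP⟩
  have hcy : Countable (adj κ (Set.range w₁)) := VGS.countable_adj _ _
  -- the other letters
  have hA₁ : AlgebraicIndependent (adj κ (Set.range w₁))
      (fun l : {l : Λ // l ∉ Set.range N} => A l) := by
    refine ai_mono_clo (adj_le ((le_adj _ _).trans (le_clo _)) ?_) hM₁
    rintro _ ⟨j, rfl⟩
    exact hsp₁ j
  have hA₀ : AlgebraicIndependent (adj κ (Set.range v))
      (fun l : {l : Λ // l ∉ Set.range N} => A l) := by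
    refine ai_mono_clo (adj_le ((le_adj _ _).trans (le_clo _)) ?_) hM
    rintro _ ⟨j, rfl⟩
    exact hsp j
  have hA₂ := ai_map (symm_mem_adj hσ₁ hσv) hA₀
  obtain ⟨σ₂, hσ₂, hσA⟩ := fs_exists_fix_ai (adj κ (Set.range w₁)) hA₂ hA₁
  have hσ₂' := mem_Fix_adj.1 hσ₂
  have hσκ : σ₂ * σ₁ ∈ VGS.Fix κ := (VGS.Fix κ).mul_mem hσ₂'.1 hσ₁
  have hσw : ∀ j, (σ₂ * σ₁) (v j) = w₁ j := by
    intro j
    change σ₂ (σ₁ (v j)) = w₁ j
    rw [hσv, hσ₂'.2 _ ⟨j, rfl⟩]
  have hSS : ∀ i l, (σ₂ * σ₁) (aeval v (S i l)) = aeval w₁ (S i l) := by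
    intro i l
    rw [← VGS.aeval_fix (H.coefS i l) hσκ v]
    congr 1
    congr 1
    funext j
    exact hσw j
  have hσN : ∀ l, l ∉ Set.range N → (σ₂ * σ₁) (A l) = A l := fun l hl => hσA ⟨l, hl⟩
  have hzero : ∀ j, (σ₂ * σ₁) (A (N j)) - A (N j) = 0 := by
    refine solve_zero (X := fun i l => aeval w₁ (S i l)) (I := I) (N := N) hS₁
      (x := fun j => (σ₂ * σ₁) (A (N j)) - A (N j)) fun i => ?_
    have h1 := congrArg (σ₂ * σ₁) (lt_letter H hvG hinj (I i))
    rw [map_sum, map_neg, map_sum] at h1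
    have h2 := lt_letter H hw₁ hinj (I i)
    have h3 : ∑ j, (σ₂ * σ₁) (aeval v (S (I i) (N j)) * A (N j)) =
        ∑ j, aeval w₁ (S (I i) (N j)) * (σ₂ * σ₁) (A (N j)) :=
      Finset.sum_congr rfl fun j _ => by rw [map_mul, hSS]
    have h4 : ∑ l ∈ Finset.univ.filter (fun l => l ∉ Set.range N),
        (σ₂ * σ₁) (A l * aeval v (S (I i) l)) =
        ∑ l ∈ Finset.univ.filter (fun l => l ∉ Set.range N), A l * aeval w₁ (S (I i) l) :=
      Finset.sum_congr rfl fun l hl => by
        rw [map_mul, hSS, hσN l (Finset.mem_filter.1 hl).2]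
    rw [h3, h4, ← h2] at h1
    simp only [mul_sub]
    rw [Finset.sum_sub_distrib, h1, sub_self]
  refine ⟨σ₂ * σ₁, mem_Fix_adj.2 ⟨hσκ, ?_⟩, ?_⟩
  · rintro _ ⟨l, rfl⟩
    by_cases hlr : l ∈ Set.range N
    · obtain ⟨j, rfl⟩ := hlr
      exact sub_eq_zero.1 (hzero j)
    · exact hσN l hlr
  · rw [← hvw, act_mkP]
    congr 1
    funext j
    exact hσw j

end Lt

end Pool.Agent.VRB
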