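import Pool.Agent.VRB.Defs
import Pool.Agent.VRC.SDefs

/-!
# Zero sets of sections of vector bundles on rationally connected varieties: definitions for the
proof
-/

set_option autoImplicit false

open scoped LinearAlgebra.Projectivization
open MvPolynomial

namespace Pool.Agent.VRB

open Pool.Agent.VGS (Fl adj clo Coef Kills)
open Pool.Agent.VCI (PN act Gen)
open Pool.Agent.VRC (cone TrLe)

variable {n : ℕ}

/-- The minor with rows `I` and columns `N` of the matrix of the values of the forms at `w`. -/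
noncomputable def mnr {m c : ℕ} {Λ : Type} (S : Fin m → Λ → MvPolynomial (Fin n) ℂ)
    (I : Fin c → Fin m) (N : Fin c → Λ) (w : Fin n → ℂ) : ℂ :=
  (Matrix.of fun i j => aeval w (S (I i) (N j))).det

/-- Some minor of size `c` is not zero at `w`. -/
def Full {m : ℕ} (c : ℕ) {Λ : Type} (S : Fin m → Λ → MvPolynomial (Fin n) ℂ) (w : Fin n → ℂ) :
    Prop :=
  ∃ (I : Fin c → Fin m) (N : Fin c → Λ), mnr S I N w ≠ 0

/-- The equations `F i = ∑ A l * S i l` of `X` with letters `A l` which are independent over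
`κ`. -/
structure Lt {s m : ℕ} (c : ℕ) {Λ : Type} [Fintype Λ] (κ : Fl) (A : Λ → ℂ)
    (S : Fin m → Λ → MvPolynomial (Fin n) ℂ) (d : Fin (s + m) → ℕ)
    (G : Fin (s + m) → MvPolynomial (Fin n) ℂ) : Prop where
  cκ : Countable κ
  ai : AlgebraicIndependent κ A
  coefS : ∀ i l, Coef κ (S i l)
  homS : ∀ i l, (S i l).IsHomogeneous (d (Fin.natAdd s i))
  hom : ∀ i, (G i).IsHomogeneous (d i)
  coefh : ∀ j : Fin s, Coef κ (G (Fin.castAdd m j))
  eq : ∀ i : Fin m, G (Fin.natAdd s i) = ∑ l, C (A l) * S i l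
  rk : ∀ w ∈ cone G, ∀ (I : Fin (c + 1) → Fin m) (N : Fin (c + 1) → Λ), mnr S I N w = 0

/-- The data of the theorem over the ground field `k`. -/
structure LinB {s m L : ℕ} (c : ℕ) (k : Fl) (h : Fin s → MvPolynomial (Fin n) ℂ)
    (g : Fin m → Fin L → MvPolynomial (Fin n) ℂ) (a : Fin L → ℂ) (K : Fl)
    (d : Fin (s + m) → ℕ) : Prop where
  ck : Countable k
  hK : K = adj k (Set.range a)
  hom : ∀ i, (eqs h g a i).IsHomogeneous (d i)
  homg : ∀ i l, (g i l).IsHomogeneous (d (Fin.natAdd s i))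
  coefh : ∀ j, Coef k (h j)
  coefg : ∀ i l, Coef k (g i l)
  ai : AlgebraicIndependent k a
  rk : ∀ z ∈ cone (eqs h g a), (mat g z).rank = c
  trd : ∀ z ∈ cone (eqs h g a), ∀ i, z i = 1 → TrLe k (c + 2) z
  trdX : ∀ L : Fl, K ≤ L → ∀ z ∈ cone (eqs h g a), ∀ i, z i = 1 → TrLe L 2 z
  sep : ∀ p ∈ Gen K (eqs h g a), ∀ y ∈ cone (eqs h g a),
    (∀ i j, y i * p.rep j = y j * p.rep i) ∨ Sp2 g p.rep y
  rc : ∀ (z z' : Fin n → ℂ) (hz : z ≠ 0) (hz' : z' ≠ 0) (i i' : Fin n), z i = 1 → z' i' = 1 →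
    Projectivization.mk ℂ z hz ∈ Gen K (eqs h g a) →
    Projectivization.mk ℂ z' hz' ∈ Gen (clo (adj K (Set.range z))) (eqs h g a) →
    ∃ φ : Fin n → Polynomial ℂ,
      (∀ j l, (φ j).coeff l ∈ clo (adj k (Set.range z ∪ Set.range z'))) ∧
      (∀ j, (φ j).eval 0 = z j) ∧ (∀ j, (φ j).eval 1 = z' j) ∧
      ∀ (P : MvPolynomial (Fin n) ℂ) (e : ℕ), P.IsHomogeneous e → Coef k P → aeval z P = 0 →
        aeval φ P = 0
  conj : ∀ L : Fl, Countable L → K ≤ L → ∀ p ∈ Gen L (eqs h g a), ∀ q ∈ Gen L (eqs h g a),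
    ∃ σ ∈ VGS.Fix (clo L), act σ p = q

end Pool.Agent.VRB
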