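import Pool.Agent.VRB.Eqs
import Pool.Agent.VRB.Mnr

/-! Zero sets of sections of vector bundles: two independent generic points of the surface are
independent generic points of the variety. -/

set_option autoImplicit false

open scoped LinearAlgebra.Projectivization
open MvPolynomial

namespace Pool.Agent.VRB

open Pool.Agent.VGS (Fl adj clo Coef Kills IsPl Sp le_adj le_clo subset_adj adj_le clo_mono ai_mono
  ai_iff ai_sum mem_clo mem_clo_adj adj_adj ai_clo clo_clo aeval_mem exists_algInd clo_adj_le)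
open Pool.Agent.VCI
open Pool.Agent.VRC (cone TrLe lin_basis TrLe.le_of_ai)

variable {n s m L c : ℕ}

/-- if `c` columns of a matrix are independent, the coefficients of these columns in a relation
are in the field generated by the others -/
theorem cols_mem {Y : Fl} {e L : ℕ} {X : Fin e → Fin L → ℂ} {N : Fin e → Fin L}
    (h : (Matrix.of fun i j => X i (N j)).det ≠ 0) (hX : ∀ i l, X i l ∈ Y) {a : Fin L → ℂ}
    (h0 : ∀ i, ∑ l, X i l * a l = 0) (ha : ∀ l, l ∉ Set.range N → a l ∈ Y) (l : Fin L) :
    a l ∈ Y := by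
  classical
  have hN : Function.Injective N := by
    intro j j' hj
    by_contra hne
    exact h (Matrix.det_zero_of_column_eq hne fun i => by simp [hj])
  by_cases hl : l ∈ Set.range N
  · obtain ⟨j, rfl⟩ := hl
    refine solve_mem (m := e) (X := X) (I := id) (N := N) h (fun i j => hX _ _)
      (x := fun j => a (N j)) (fun i => ?_) j
    have h1 : ∑ j, X i (N j) * a (N j) = ∑ l ∈ Finset.univ.image N, X i l * a l := by
      rw [Finset.sum_image fun a _ b _ hab => hN hab]
    have h2 : ∑ l ∈ Finset.univ.image N, X i l * a l +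
        ∑ l ∈ (Finset.univ.image N)ᶜ, X i l * a l = 0 := by
      rw [Finset.sum_add_sum_compl]
      exact h0 i
    change ∑ j, X i (N j) * a (N j) ∈ Y
    rw [h1, eq_neg_of_add_eq_zero_left h2]
    refine neg_mem (sum_mem fun l hl => mul_mem (hX _ _) (ha l ?_))
    rw [Finset.mem_compl, Finset.mem_image] at hl
    rintro ⟨j, rfl⟩
    exact hl ⟨j, Finset.mem_univ _, rfl⟩
  · exact ha l hl

theorem card_cols {e L : ℕ} {X : Fin e → Fin L → ℂ} {N : Fin e → Fin L}
    (h : (Matrix.of fun i j => X i (N j)).det ≠ 0) :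
    Nat.card {l : Fin L // l ∉ Set.range N} + e = L := by
  classical
  have hN : Function.Injective N := by
    intro j j' hj
    by_contra hne
    exact h (Matrix.det_zero_of_column_eq hne fun i => by simp [hj])
  have h2 := Nat.card_congr (Equiv.sumCompl (fun l : Fin L => l ∈ Set.range N))
  rw [Nat.card_sum] at h2
  have h3 : Nat.card {l : Fin L // l ∈ Set.range N} = e := by
    rw [← Nat.card_congr (Equiv.ofInjective N hN)]
    simp
  rw [h3, Nat.card_eq_fintype_card (α := Fin L), Fintype.card_fin] at h2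
  omega

/-- Two independent generic points of the surface have `2 c + 4` independent coordinates over the
ground field. -/
theorem count_two {r : ℕ} {k K : Fl} {h : Fin s → MvPolynomial (Fin (r + 3)) ℂ}
    {g : Fin m → Fin L → MvPolynomial (Fin (r + 3)) ℂ} {a : Fin L → ℂ}
    (hg : ∀ i l, Coef k (g i l)) (hai : AlgebraicIndependent k a)
    (hK : K = adj k (Set.range a)) {z z' : Fin (r + 3) → ℂ} (hz : z ∈ cone (eqs h g a))
    (hz' : z' ∈ cone (eqs h g a)) {j l j' l' : Fin (r + 3)}
    (hjl : AlgebraicIndependent K ![z j, z l])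
    (hjl' : AlgebraicIndependent (adj K (Set.range z)) ![z' j', z' l'])
    (hrk : (mat g z).rank = c) (hrk' : (mat g z').rank = c) (hsp : Sp2 g z z')
    (htr : TrLe k (c + 2) z) (htr' : TrLe k (c + 2) z') :
    (∃ f : Fin (c + 2) → Fin (r + 3), (AlgebraicIndependent k fun b => z (f b)) ∧
        ∀ j, z j ∈ clo (adj k (Set.range fun b => z (f b)))) ∧
      ∃ f : Fin (c + 2) → Fin (r + 3),
        AlgebraicIndependent (adj k (Set.range z)) fun b => z' (f b) := by
  classical
  obtain ⟨e, f, hf, hfz⟩ := lin_basis k z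
  obtain ⟨e', f', hf', hfz'⟩ := lin_basis (adj k (Set.range z)) z'
  have he := htr.le_of_ai hf
  have he' := htr'.le_of_ai (ai_mono (le_adj _ _) hf')
  obtain ⟨I, N, hIN⟩ := exists_mnr_two hrk hrk' hsp
  obtain ⟨-, hz1⟩ := cone_eqs hz
  obtain ⟨-, hz1'⟩ := cone_eqs hz'
  -- the independent family
  have hx : AlgebraicIndependent k (Sum.elim a (Sum.elim ![z j, z l] ![z' j', z' l'])) := by
    rw [ai_sum, ← hK, ai_sum]
    refine ⟨hai, hjl, ai_mono ?_ hjl'⟩
    refine adj_le (le_adj _ _) ?_
    rintro _ ⟨b, rfl⟩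
    refine subset_adj _ _ ?_
    fin_cases b
    · exact ⟨j, rfl⟩
    · exact ⟨l, rfl⟩
  -- the spanning family
  let A := {l : Fin L // l ∉ Set.range N}
  let y : A ⊕ (Fin e ⊕ Fin e') → ℂ := Sum.elim (fun l => a l.1)
    (Sum.elim (fun b => z (f b)) (fun b => z' (f' b)))
  obtain ⟨Y, hY⟩ : ∃ Y, Y = clo (adj k (Set.range y)) := ⟨_, rfl⟩
  have hkY : k ≤ Y := by
    rw [hY]
    exact (le_adj _ _).trans (le_clo _)
  have hyY : ∀ o, y o ∈ Y := by
    intro o
    rw [hY]
    exact le_clo _ (subset_adj _ _ ⟨o, rfl⟩)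
  have hYc : clo Y = Y := by rw [hY, clo_clo]
  have hzY : ∀ j, z j ∈ Y := by
    intro j
    rw [← hYc]
    refine clo_mono (adj_le hkY ?_) (hfz j)
    rintro _ ⟨b, rfl⟩
    exact hyY (Sum.inr (Sum.inl b))
  have hzY' : ∀ j, z' j ∈ Y := by
    intro j
    rw [← hYc]
    refine clo_mono (adj_le (adj_le hkY ?_) ?_) (hfz' j)
    · rintro _ ⟨b, rfl⟩
      exact hzY b
    · rintro _ ⟨b, rfl⟩
      exact hyY (Sum.inr (Sum.inr b))
  have haY : ∀ l, a l ∈ Y := by
    refine cols_mem (X := fun i => Sum.elim (mat g z) (mat g z') (I i)) (N := N) hIN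
      (fun i l => ?_) (fun i => ?_) (fun l hl => hyY (Sum.inl ⟨l, hl⟩))
    · rcases I i with i' | i'
      · exact aeval_mem ((hg i' l).mono hkY) hzY
      · exact aeval_mem ((hg i' l).mono hkY) hzY'
    · rcases I i with i' | i'
      · exact hz1 i'
      · exact hz1' i'
  have hcard := ai_le_card hx (y := y) (by
    rw [← hY]
    rintro (l | b | b)
    · exact haY l
    · fin_cases b
      · exact hzY j
      · exact hzY l
    · fin_cases b
      · exact hzY' j'
      · exact hzY' l')
  have hcA : Nat.card A + 2 * c = L :=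
    card_cols (X := fun i => Sum.elim (mat g z) (mat g z') (I i)) hIN
  rw [Nat.card_sum, Nat.card_sum, Nat.card_sum, Nat.card_sum] at hcard
  generalize Nat.card A = N' at hcard hcA
  simp only [Nat.card_eq_fintype_card, Fintype.card_fin] at hcard
  have h1 : e = c + 2 := by omega
  have h2 : e' = c + 2 := by omega
  subst h1
  subst h2
  exact ⟨⟨f, hf, hfz⟩, ⟨f', hf'⟩⟩

end Pool.Agent.VRB
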