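import Pool.Agent.VRC.Defs

/-!
# Zero sets of sections of vector bundles on rationally connected varieties: definitions for the
statement
-/

set_option autoImplicit false

open scoped LinearAlgebra.Projectivization
open MvPolynomial

namespace Pool.Agent.VRB

open Pool.Agent.VGS (Fl adj)
open Pool.Agent.VCI (dFc)
open Pool.Agent.VRC (cone)

variable {n s m L : ℕ}

/-- The sections `g l = (g 1 l, …, g m l)` of a vector bundle, which is contained in a sum of
`m` line bundles: the equations of the zero set `X` of the section `∑ l, a l * g l` on `h = 0`. -/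
noncomputable def eqs (h : Fin s → MvPolynomial (Fin n) ℂ)
    (g : Fin m → Fin L → MvPolynomial (Fin n) ℂ) (a : Fin L → ℂ) :
    Fin (s + m) → MvPolynomial (Fin n) ℂ :=
  Fin.append h fun i => ∑ l, C (a l) * g i l

/-- The field generated by the coefficients of the `h j` and the `g i l`. -/
noncomputable def base (h : Fin s → MvPolynomial (Fin n) ℂ)
    (g : Fin m → Fin L → MvPolynomial (Fin n) ℂ) : Fl :=
  adj ⊥ ((Set.range fun jm : Fin s × (Fin n →₀ ℕ) => coeff jm.2 (h jm.1)) ∪
    Set.range fun il : (Fin m × Fin L) × (Fin n →₀ ℕ) => coeff il.2 (g il.1.1 il.1.2))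

/-- The matrix of the values of the sections at `z`; the value at `z` of the section
`∑ l, b l * g l` is `(mat g z).mulVec b`. -/
noncomputable def mat (g : Fin m → Fin L → MvPolynomial (Fin n) ℂ) (z : Fin n → ℂ) :
    Matrix (Fin m) (Fin L) ℂ :=
  Matrix.of fun i l => aeval z (g i l)

/-- Every value at `y` of a section is the value at `y` of a section which is zero at `z`. -/
def Sp2 (g : Fin m → Fin L → MvPolynomial (Fin n) ℂ) (z y : Fin n → ℂ) : Prop :=
  ∀ b : Fin L → ℂ, ∃ b' : Fin L → ℂ, (mat g z).mulVec b' = 0 ∧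
    (mat g y).mulVec b' = (mat g y).mulVec b

/-- The sections take independent values at a general point `z` of `F = 0` and any other point `y`
of `F = 0`. -/
def Separates (F : Fin (s + m) → MvPolynomial (Fin n) ℂ)
    (g : Fin m → Fin L → MvPolynomial (Fin n) ℂ) : Prop :=
  ∃ B : MvPolynomial (Fin n) ℂ, (∃ z ∈ cone F, aeval z B ≠ 0) ∧
    ∀ z ∈ cone F, aeval z B ≠ 0 → ∀ y ∈ cone F, (∀ i j, y i * z j = y j * z i) ∨ Sp2 g z y

/-- The tangent space at `z` of the cone `h = 0` has dimension at most `N`. -/
def TanLe (h : Fin s → MvPolynomial (Fin n) ℂ) (N : ℕ) (z : Fin n → ℂ) : Prop :=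
  ∀ v : Fin (N + 1) → Fin n → ℂ, (∀ b j, dFc (h j) z (v b) = 0) → ¬ LinearIndependent ℂ v

end Pool.Agent.VRB
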