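import Pool.Agent.VRB.LinE
import Pool.Agent.VRB.LinSep
import Pool.Agent.VRB.LinTrd

/-! Zero sets of sections of vector bundles: the data over the ground field. -/

set_option autoImplicit false

open scoped LinearAlgebra.Projectivization
open MvPolynomial

namespace Pool.Agent.VRB

open Pool.Agent.VGS (Fl adj clo Coef)
open Pool.Agent.VCI
open Pool.Agent.VRC (cone IsIrr IsRC TrLe Sfc0)

variable {r s m L c : ℕ} {k K : Fl} {h : Fin s → MvPolynomial (Fin (r + 3)) ℂ}
  {g : Fin m → Fin L → MvPolynomial (Fin (r + 3)) ℂ} {a : Fin L → ℂ} {d : Fin (s + m) → ℕ}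

/-- the data of the theorem over a ground field `k` -/
theorem linB_of (hirr : IsIrr h) (hrc : IsRC h) (hXi : IsIrr (eqs h g a))
    (hsep : Separates (eqs h g a) g) (hrk : ∀ z ∈ cone (eqs h g a), (mat g z).rank = c)
    (htan : ∀ z ∈ cone (eqs h g a), TanLe h (c + 3) z)
    (homg : ∀ i l, (g i l).IsHomogeneous (d (Fin.natAdd s i))) (ck : Countable k)
    (hbase : base h g ≤ k) (hai : AlgebraicIndependent k a) (hK : K = adj k (Set.range a))
    (hX : Sfc0 (eqs h g a) d K) : LinB c k h g a K d := by
  have hS := lin_sep hXi hsep ck hbase hK hX homg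
  have homh : ∀ j, (h j).IsHomogeneous (d (Fin.castAdd m j)) := fun j => by
    have h1 := hX.hom (Fin.castAdd m j)
    rwa [eqs_cast] at h1
  have htrd : ∀ z ∈ cone (eqs h g a), ∀ i, z i = 1 → TrLe k (c + 2) z := fun z hz i hzi =>
    lin_trd htan ck homh (base_coefh hbase) hz hzi
  exact {
    ck := ck
    hK := hK
    hom := hX.hom
    homg := homg
    coefh := base_coefh hbase
    coefg := base_coefg hbase
    ai := hai
    rk := hrk
    trd := htrd
    trdX := fun L hL z hz i hzi => hX.trLe hL hz hzi
    sep := hS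
    rc := lin_rc hirr hrc hX.hom homg ck (base_coefh hbase) (base_coefg hbase) hai hK hrk htrd
      htan hS
    conj := hX.conj }

end Pool.Agent.VRB
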