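import Pool.Agent.VRC.RedA
import Pool.Agent.VRC.MoveK
import Pool.Agent.VRB.SDefs
import Pool.Agent.VRB.Mnr

/-! Vector bundles on rationally connected varieties: the moved point of RedStep and its limits. -/

set_option autoImplicit false

open scoped LinearAlgebra.Projectivization
open MvPolynomial

namespace Pool.Agent.VRB

open Pool.Agent.VGS (Fl adj clo Coef Kills IsPl Sp)
open Pool.Agent.VCI
open Pool.Agent.VRC (cone TrLe moveK)
open Pool.Agent.VRC.RedA (aev cmap inR_ap inR_of sp_ap fin_lim conj_of_inR exists_gam exists_hmg)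

namespace RedB

variable {n s m c : ℕ} {Λ : Type} {κ : Fl}

/-- the limit of a determinant -/
theorem sp_det {C : Fl} {V : ValuationSubring ℂ} (hV : IsPl V C) {Q Q' : Matrix (Fin c) (Fin c) ℂ}
    (h : ∀ i j, Sp V C (Q i j) (Q' i j)) : Sp V C Q.det Q'.det := by
  rw [Matrix.det_apply', Matrix.det_apply']
  refine VGS.Sp.sum hV _ fun σ _ => (VGS.Sp.const hV ?_).mul hV
    (VGS.Sp.prod hV _ fun i _ => h _ _)
  exact intCast_mem C _

/-- the limit of the solution of a linear system -/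
theorem sp_solve {C : Fl} {V : ValuationSubring ℂ} (hV : IsPl V C)
    {Q Q' : Matrix (Fin c) (Fin c) ℂ} (h : ∀ i j, Sp V C (Q i j) (Q' i j)) (hd : Q'.det ≠ 0)
    {x x' : Fin c → ℂ} (hx : ∀ i, Sp V C (∑ j, Q i j * x j) (∑ j, Q' i j * x' j)) (j : Fin c) :
    Sp V C (x j) (x' j) := by
  classical
  have key : ∀ (Q : Matrix (Fin c) (Fin c) ℂ) (x : Fin c → ℂ),
      (Q.updateCol j fun i => ∑ j, Q i j * x j).det = Q.det * x j := by
    intro Q x
    have h1 : Q.cramer (Q.mulVec x) = Q.det • x := by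
      rw [Matrix.cramer_eq_adjugate_mulVec, Matrix.mulVec_mulVec, Matrix.adjugate_mul,
        Matrix.smul_mulVec, Matrix.one_mulVec]
    have h2 := congrFun h1 j
    rw [Matrix.cramer_apply, Pi.smul_apply, smul_eq_mul] at h2
    exact h2
  have h1 : Sp V C (Q.updateCol j fun i => ∑ j, Q i j * x j).det
      (Q'.updateCol j fun i => ∑ j, Q' i j * x' j).det := by
    refine sp_det hV fun i j' => ?_
    rw [Matrix.updateCol_apply, Matrix.updateCol_apply]
    split_ifs
    · exact hx i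
    · exact h i j'
  rw [key, key] at h1
  have hQ := sp_det hV h
  have h2 := h1.div hV hQ hd
  rwa [mul_div_cancel_left₀ _ (VGS.Sp.ne_zero hV hQ hd), mul_div_cancel_left₀ _ hd] at h2

/-- a sum over the letters in the range of `N` -/
theorem sum_range {Λ : Type} [Fintype Λ] {N : Fin c → Λ} (hN : Function.Injective N) {f : Λ → ℂ}
    (hf : ∀ l, l ∉ Set.range N → f l = 0) : ∑ l, f l = ∑ j, f (N j) :=
  (Fintype.sum_of_injective N hN (fun j => f (N j)) f hf fun _ => rfl).symm

theorem mnr_inj {S : Fin m → Λ → MvPolynomial (Fin n) ℂ} {I : Fin c → Fin m} {N : Fin c → Λ}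
    {w : Fin n → ℂ} (h : mnr S I N w ≠ 0) : Function.Injective N := by
  intro i j hij
  by_contra hne
  apply h
  refine Matrix.det_zero_of_column_eq hne fun k => ?_
  change aeval w (S (I k) (N i)) = aeval w (S (I k) (N j))
  rw [hij]

variable [Fintype Λ] {A : Λ → ℂ} {S : Fin m → Λ → MvPolynomial (Fin n) ℂ} {d : Fin (s + m) → ℕ}
  {G : Fin (s + m) → MvPolynomial (Fin n) ℂ}

theorem coefG (H : Lt c κ A S d G) (i : Fin (s + m)) : Coef (adj κ (Set.range A)) (G i) := by
  refine Fin.addCases (fun j => (H.coefh j).mono (VGS.le_adj _ _)) (fun j => ?_) i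
  rw [H.eq j]
  intro u
  rw [coeff_sum]
  refine sum_mem fun l _ => ?_
  rw [coeff_C_mul]
  exact mul_mem (VGS.subset_adj _ _ ⟨l, rfl⟩) (VGS.le_adj _ _ (H.coefS j l u))

/-- the value of the equation -/
theorem aevalG (H : Lt c κ A S d G) (z : Fin n → ℂ) (i : Fin m) :
    aeval z (G (Fin.natAdd s i)) = ∑ l, A l * aeval z (S i l) := by
  rw [H.eq i, map_sum]
  refine Finset.sum_congr rfl fun l _ => ?_
  rw [map_mul, aeval_C]
  rfl

theorem derG (H : Lt c κ A S d G) {q : Fin n → ℂ} (hqG : q ∈ cone G)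
    {D : Derivation ℤ ℂ ℂ} (hD : Kills κ D) (i : Fin m)
    (h : ∑ v, aeval q (pderiv v (G (Fin.natAdd s i))) * D (q v) = 0) :
    ∑ l, aeval q (S i l) * D (A l) = 0 := by
  have h1 : D (aeval q (G (Fin.natAdd s i))) = 0 := by rw [hqG.2, map_zero]
  rw [aevalG H, map_sum] at h1
  have h2 : ∑ v, aeval q (pderiv v (G (Fin.natAdd s i))) * D (q v) =
      ∑ l, A l * D (aeval q (S i l)) := by
    have h3 : ∀ v, aeval q (pderiv v (G (Fin.natAdd s i))) * D (q v) =
        ∑ l, A l * (aeval q (pderiv v (S i l)) * D (q v)) := by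
      intro v
      rw [H.eq i, map_sum, map_sum, Finset.sum_mul]
      refine Finset.sum_congr rfl fun l _ => ?_
      rw [Derivation.leibniz, pderiv_C, smul_zero, add_zero, smul_eq_mul, map_mul, aeval_C]
      change A l * _ * _ = _
      ring
    simp_rw [h3]
    rw [Finset.sum_comm]
    refine Finset.sum_congr rfl fun l _ => ?_
    rw [der_aeval' (H.coefS i l) hD, Finset.mul_sum]
  have h4 : ∑ l, aeval q (S i l) * D (A l) + ∑ l, A l * D (aeval q (S i l)) = 0 := by
    rw [← Finset.sum_add_distrib]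
    refine Eq.trans (Finset.sum_congr rfl fun l _ => ?_) h1
    rw [Derivation.leibniz, smul_eq_mul, smul_eq_mul, add_comm]
  rwa [← h2, h, add_zero] at h4

/-- the equations `I` imply the others -/
theorem all_zero (H : Lt c κ A S d G) {y : Fin n → ℂ} {I : Fin c → Fin m} {N : Fin c → Λ}
    (hIN : mnr S I N y ≠ 0)
    (hrk : ∀ (I' : Fin (c + 1) → Fin m) (N' : Fin (c + 1) → Λ), mnr S I' N' y = 0)
    (hI : ∀ j, aeval y (G (Fin.natAdd s (I j))) = 0) (i : Fin m) :
    aeval y (G (Fin.natAdd s i)) = 0 := by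
  obtain ⟨b, hb⟩ := row_comb (X := fun i l => aeval y (S i l)) hIN hrk i
  rw [aevalG H]
  have h1 : ∀ l, A l * aeval y (S i l) = ∑ j, b j * (A l * aeval y (S (I j) l)) := by
    intro l
    have h2 : aeval y (S i l) = ∑ j, b j * aeval y (S (I j) l) := hb l
    rw [h2, Finset.mul_sum]
    refine Finset.sum_congr rfl fun j _ => ?_
    ring
  simp_rw [h1]
  rw [Finset.sum_comm]
  refine Finset.sum_eq_zero fun j _ => ?_
  rw [← Finset.mul_sum, ← aevalG H, hI j, mul_zero]

/-- the moved point -/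
theorem red_move (H : Lt c κ A S d G) {q : Fin n → ℂ} (hqG : q ∈ cone G)
    (hqE : ∀ j, q j ∈ clo (adj κ (Set.range A))) {I : Fin c → Fin m} {N : Fin c → Λ}
    (hIN : mnr S I N q ≠ 0) (γ : {l // l ∉ Set.range N} → κ) :
    ∃ (V : ValuationSubring ℂ) (y : Fin n → ℂ) (A' : Λ → ℂ) (u : ℂ),
      IsPl V (clo (adj κ (Set.range A))) ∧ Sp V (clo (adj κ (Set.range A))) u 0 ∧
      u ∉ clo (adj κ (Set.range A)) ∧ (∀ j, Sp V (clo (adj κ (Set.range A))) (y j) (q j)) ∧
      (∀ j, y j ∈ clo (adj (clo (adj κ (Set.range A))) {u})) ∧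
      (∀ l : {l // l ∉ Set.range N}, A' l = (1 - u) * A l + u * γ l) ∧
      (∀ i : Fin m, aeval y (G (Fin.natAdd s i)) = 0) ∧
      InR κ (Sum.elim q A) (Sum.elim y A') := by
  classical
  have hcκ := H.cκ
  have hNi := mnr_inj hIN
  have hcA : Countable (Set.range A) := (Set.finite_range A).countable.to_subtype
  obtain ⟨Φ, hΦ⟩ : ∃ Φ : Λ → MvPolynomial (Option (Fin n ⊕ Λ)) ℂ, Φ = fun l =>
    if h : l ∈ Set.range N then
      rename (some ∘ Sum.inl) (G (Fin.natAdd s (I (Classical.choose h)))) else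
      X (some (Sum.inr l)) - ((1 - X none) * C (A l) + X none * C (γ ⟨l, h⟩ : ℂ)) := ⟨_, rfl⟩
  have hΦ1 : ∀ j, Φ (N j) = rename (some ∘ Sum.inl) (G (Fin.natAdd s (I j))) := by
    intro j
    have h : N j ∈ Set.range N := ⟨j, rfl⟩
    rw [hΦ]
    beta_reduce
    rw [dif_pos h, hNi (Classical.choose_spec h)]
  have hΦ2 : ∀ l, ∀ h : l ∉ Set.range N, Φ l =
      X (some (Sum.inr l)) - ((1 - X none) * C (A l) + X none * C (γ ⟨l, h⟩ : ℂ)) := by
    intro l h
    rw [hΦ]
    exact dif_neg h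
  have hAC : ∀ l, A l ∈ clo (adj κ (Set.range A)) := fun l =>
    VGS.le_clo _ (VGS.subset_adj _ _ ⟨l, rfl⟩)
  have hκC : κ ≤ clo (adj κ (Set.range A)) := (VGS.le_adj _ _).trans (VGS.le_clo _)
  have hcoef : ∀ l, Coef (clo (adj κ (Set.range A))) (Φ l) := by
    intro l
    by_cases h : l ∈ Set.range N
    · obtain ⟨j, rfl⟩ := h
      rw [hΦ1 j]
      obtain ⟨G', hG'⟩ := VGS.coef_iff.1 ((coefG H (Fin.natAdd s (I j))).mono (VGS.le_clo _))
      refine VGS.coef_iff.2 ⟨rename (some ∘ Sum.inl) G', ?_⟩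
      rw [map_rename, hG']
    · rw [hΦ2 l h]
      refine VGS.coef_iff.2 ⟨X (some (Sum.inr l)) - ((1 - X none) * C ⟨A l, hAC l⟩ +
        X none * C ⟨(γ ⟨l, h⟩ : ℂ), hκC (γ ⟨l, h⟩).2⟩), ?_⟩
      simp only [map_sub, map_add, map_mul, map_X, map_C, map_one]
      rfl
  have hcomp : ∀ (u : ℂ) (y : Fin n ⊕ Λ → ℂ), (fun o : Option (Fin n ⊕ Λ) => o.elim u y) ∘
      (some ∘ Sum.inl) = fun j => y (Sum.inl j) := fun u y => rfl
  have h0 : ∀ l, aeval (fun o : Option (Fin n ⊕ Λ) => o.elim 0 (Sum.elim q A)) (Φ l) = 0 := by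
    intro l
    by_cases h : l ∈ Set.range N
    · obtain ⟨j, rfl⟩ := h
      rw [hΦ1 j, aeval_rename, hcomp]
      exact hqG.2 _
    · rw [hΦ2 l h]
      simp
  have hJ : ∀ D : Derivation ℤ ℂ ℂ, Kills κ D →
      (∀ l, ∑ i, aeval (fun o : Option (Fin n ⊕ Λ) => o.elim 0 (Sum.elim q A))
        (pderiv (some i) (Φ l)) * D (Sum.elim q A i) = 0) → ∀ l, D (A l) = 0 := by
    intro D hD hDl
    have h1 : ∀ l, l ∉ Set.range N → D (A l) = 0 := by
      intro l h
      have h2 := hDl l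
      rw [hΦ2 l h, Finset.sum_eq_single (Sum.inr l)] at h2
      · simpa [Derivation.leibniz, pderiv_X, Pi.single_apply] using h2
      · intro v _ hv
        have h3 : pderiv (some v) (X (some (Sum.inr l)) - ((1 - X none) * C (A l) +
            X none * C (γ ⟨l, h⟩ : ℂ)) : MvPolynomial (Option (Fin n ⊕ Λ)) ℂ) = 0 := by
          simp [Derivation.leibniz, pderiv_X, Ne.symm hv]
        rw [h3, map_zero, zero_mul]
      · intro h3
        exact absurd (Finset.mem_univ _) h3
    have h2 : ∀ j, D (A (N j)) = 0 := by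
      refine solve_zero (X := fun i l => aeval q (S i l)) hIN fun i => ?_
      have h2 := hDl (N i)
      rw [hΦ1 i] at h2
      have h3 := sum_pderiv_rename (some ∘ Sum.inl : Fin n → Option (Fin n ⊕ Λ))
        (G (Fin.natAdd s (I i))) (fun o : Option (Fin n ⊕ Λ) => o.elim 0 (Sum.elim q A))
        (fun o : Option (Fin n ⊕ Λ) => o.elim 0 fun v => D (Sum.elim q A v))
      rw [Fintype.sum_option] at h3
      change _ * 0 + ∑ v, _ * D (Sum.elim q A v) = _ at h3
      rw [h2, mul_zero, zero_add, hcomp] at h3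
      have h4 := derG H hqG hD (I i) h3.symm
      rw [sum_range hNi fun l hl => by rw [h1 l hl, mul_zero]] at h4
      exact h4
    intro l
    by_cases h : l ∈ Set.range N
    · obtain ⟨j, rfl⟩ := h
      exact h2 j
    · exact h1 l h
  obtain ⟨V, y, u, hV, hu, -, huC, hy, hyC, hyΦ, hR⟩ := moveK κ (clo (adj κ (Set.range A)))
    (VGS.clo_clo _) hκC A H.ai hAC (Sum.elim q A) (by
      rintro (j | l)
      · exact hqE j
      · exact hAC l) Φ hcoef h0 hJ
  have hyI : ∀ j, aeval (fun j => y (Sum.inl j)) (G (Fin.natAdd s (I j))) = 0 := by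
    intro j
    have h1 := hyΦ (N j)
    rw [hΦ1 j, aeval_rename, hcomp] at h1
    exact h1
  have hRy : ∀ P : MvPolynomial (Fin n) ℂ, Coef κ P → aeval q P = 0 →
      aeval (fun j => y (Sum.inl j)) P = 0 := by
    intro P hP h0
    have h1 := hR (rename Sum.inl P) (by
      obtain ⟨P', rfl⟩ := VGS.coef_iff.1 hP
      exact VGS.coef_iff.2 ⟨rename Sum.inl P', by rw [map_rename]⟩) (by
        rw [aeval_rename]; exact h0)
    rw [aeval_rename] at h1
    exact h1
  refine ⟨V, fun j => y (Sum.inl j), fun l => y (Sum.inr l), u, hV, hu, huC,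
    fun j => hy (Sum.inl j), fun j => hyC (Sum.inl j), ?_, ?_, ?_⟩
  · rintro ⟨l, h⟩
    have h1 := hyΦ l
    rw [hΦ2 l h] at h1
    simp only [map_sub, map_add, map_mul, aeval_X, aeval_C, map_one] at h1
    change y (Sum.inr l) = (1 - u) * A l + u * (γ ⟨l, h⟩ : ℂ)
    have h2 : y (Sum.inr l) - ((1 - u) * A l + u * (γ ⟨l, h⟩ : ℂ)) = 0 := h1
    exact sub_eq_zero.1 h2
  · refine all_zero H (I := I) (N := N) ?_ ?_ hyI
    · have h1 : Sp V (clo (adj κ (Set.range A))) (mnr S I N fun j => y (Sum.inl j))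
          (mnr S I N q) := by
        refine sp_det hV fun i j => ?_
        exact VGS.Sp.aeval hV ((H.coefS _ _).mono hκC) fun v => hy (Sum.inl v)
      exact VGS.Sp.ne_zero hV h1 hIN
    · intro I' N'
      rw [← aeval_mnrP]
      refine hRy _ (coef_mnrP H.coefS I' N') ?_
      rw [aeval_mnrP]
      exact H.rk q hqG I' N'
  · have h1 : Sum.elim (fun j => y (Sum.inl j)) (fun l => y (Sum.inr l)) = y := by
      funext v
      rcases v with j | l <;> rfl
    rw [h1]
    exact hR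

/-! ### the limits -/

/-- the parameters at infinity -/
theorem red_gam {q : Fin n → ℂ} (hqE : ∀ j, q j ∈ clo (adj κ (Set.range A)))
    {N : Fin c → Λ} (hN : Function.Injective N) :
    ∃ γ : {l // l ∉ Set.range N} → κ, ∀ (i : Fin n) (f : Fin (c + 1) → Fin n),
      ∃ P : MvPolynomial ({l // l ∉ Set.range N} ⊕ Fin (c + 1)) κ,
        aeval (Sum.elim (fun l : {l // l ∉ Set.range N} => A l) fun b => q (f b) / q i) P =
          (0 : ℂ) ∧
        (aeval (Sum.elim (fun l => C (γ l)) X) P : MvPolynomial (Fin (c + 1)) κ) ≠ 0 := by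
  classical
  have hcard : Nat.card Λ = Nat.card {l // l ∉ Set.range N} + c := by
    have e : {l // l ∈ Set.range N} ≃ Fin c := (Equiv.ofInjective N hN).symm
    have h1 := Nat.card_congr (Equiv.sumCompl fun l => l ∈ Set.range N)
    rw [Nat.card_sum, Nat.card_congr e, Nat.card_eq_fintype_card (α := Fin c),
      Fintype.card_fin] at h1
    omega
  have h1 : ∀ x : Fin n × (Fin (c + 1) → Fin n),
      ∃ P : MvPolynomial ({l // l ∉ Set.range N} ⊕ Fin (c + 1)) κ, P ≠ 0 ∧
        aeval (Sum.elim (fun l : {l // l ∉ Set.range N} => A l) fun b => q (x.2 b) / q x.1) P =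
          (0 : ℂ) := by
    intro x
    have h2 : ¬ AlgebraicIndependent κ
        (Sum.elim (fun l : {l // l ∉ Set.range N} => A l) fun b => q (x.2 b) / q x.1) := by
      intro hai
      have h3 := ai_le_card hai (y := A) (by
        rintro (l | b)
        · exact VGS.le_clo _ (VGS.subset_adj _ _ ⟨l.1, rfl⟩)
        · exact div_mem (hqE _) (hqE _))
      rw [hcard, Nat.card_sum, Nat.card_eq_fintype_card (α := Fin (c + 1)), Fintype.card_fin] at h3
      omega
    rw [algebraicIndependent_iff] at h2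
    push Not at h2
    obtain ⟨P, h3, h4⟩ := h2
    exact ⟨P, h4, h3⟩
  choose P hP0 hP using h1
  obtain ⟨γ, hγ⟩ := exists_gam P hP0
  exact ⟨γ, fun i f => ⟨P (i, f), hP (i, f), hγ (i, f)⟩⟩

omit [Fintype Λ] in
/-- the limits at `u → 1` -/
theorem red_lim1 {q : Fin n → ℂ} {N : Fin c → Λ} {γ : {l // l ∉ Set.range N} → κ}
    (hγ : ∀ (i : Fin n) (f : Fin (c + 1) → Fin n),
      ∃ P : MvPolynomial ({l // l ∉ Set.range N} ⊕ Fin (c + 1)) κ,
        aeval (Sum.elim (fun l : {l // l ∉ Set.range N} => A l) fun b => q (f b) / q i) P =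
          (0 : ℂ) ∧
        (aeval (Sum.elim (fun l => C (γ l)) X) P : MvPolynomial (Fin (c + 1)) κ) ≠ 0)
    {Cc : Fl} (hκC : κ ≤ Cc) {V : ValuationSubring ℂ} (hV : IsPl V Cc) {y : Fin n → ℂ}
    {A' : Λ → ℂ} (hR : InR κ (Sum.elim q A) (Sum.elim y A'))
    (hA' : ∀ l : {l // l ∉ Set.range N}, Sp V Cc (A' l) (γ l)) {w : Fin n → ℂ} {i : Fin n}
    (hyi : y i ≠ 0) (hyw : ∀ j, Sp V Cc (y j / y i) (w j)) : TrLe κ c w := by
  intro f hai
  obtain ⟨P, hP, hP0⟩ := hγ i f
  obtain ⟨M, P', hP'⟩ := exists_hmg P f i (Subtype.val : {l // l ∉ Set.range N} → Λ)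
  have hqi : q i ≠ 0 := by
    intro h
    apply hyi
    have h1 := inR_ap hR (X (Sum.inl i)) (by rw [aeval_X]; exact h)
    rwa [aeval_X] at h1
  have h1 : (aeval (Sum.elim q A) P' : ℂ) = 0 := by
    rw [hP' q A hqi, hP, mul_zero]
  have h2 := inR_ap hR P' h1
  rw [hP' y A' hyi] at h2
  have h3 := (mul_eq_zero.1 h2).resolve_left (pow_ne_zero _ hyi)
  have h4 : Sp V Cc (aeval (Sum.elim (fun l : {l // l ∉ Set.range N} => A' l)
      fun b => y (f b) / y i) P) (aeval (Sum.elim (fun l => (γ l : ℂ)) fun b => w (f b)) P) := by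
    refine sp_ap hκC hV P ?_
    rintro (l | b)
    · exact hA' l
    · exact hyw (f b)
  rw [h3] at h4
  have h5 := VGS.Sp.unique hV h4 (VGS.Sp.const hV (zero_mem _))
  apply hP0
  rw [algebraicIndependent_iff] at hai
  refine hai _ ?_
  rw [← h5]
  have h6 : (aeval (fun b => w (f b)) : MvPolynomial (Fin (c + 1)) κ →ₐ[κ] ℂ).comp
      (aeval (Sum.elim (fun l => C (γ l)) X)) =
      aeval (Sum.elim (fun l => (γ l : ℂ)) fun b => w (f b)) := by
    apply MvPolynomial.algHom_ext
    rintro (l | b)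
    · rw [AlgHom.comp_apply, aeval_X, aeval_X, Sum.elim_inl, Sum.elim_inl, aeval_C]
      rfl
    · rw [AlgHom.comp_apply, aeval_X, aeval_X, Sum.elim_inr, Sum.elim_inr, aeval_X]
  exact DFunLike.congr_fun h6 P

/-- the limits at `u → 0` -/
theorem red_lim0 (H : Lt c κ A S d G) {q : Fin n → ℂ} {i₀ : Fin n} (hqi : q i₀ = 1)
    (hqG : q ∈ cone G) (hqE : ∀ j, q j ∈ clo (adj κ (Set.range A))) {I : Fin c → Fin m}
    {N : Fin c → Λ} (hNi : Function.Injective N)
    {Cc : Fl} (hκC : κ ≤ Cc) {V : ValuationSubring ℂ} (hV : IsPl V Cc) {y : Fin n → ℂ}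
    {A' : Λ → ℂ} (hR : InR κ (Sum.elim q A) (Sum.elim y A'))
    (hA' : ∀ l : {l // l ∉ Set.range N}, Sp V Cc (A' l) (A l)) {w : Fin n → ℂ} {i : Fin n}
    (hwG : w ∈ cone G) (hyi : y i ≠ 0) (hyw : ∀ j, Sp V Cc (y j / y i) (w j)) :
    (∃ σ ∈ VGS.Fix (adj κ (Set.range A)), ∃ a : ℂ, a ≠ 0 ∧ ∀ j, σ (q j) = a * w j) ∨
      ((∀ (I' : Fin c → Fin m) (N' : Fin c → Λ), mnr S I' N' w ≠ 0 → mnr S I' N' q ≠ 0) ∧
        mnr S I N w = 0) := by
  classical
  have hcκ := H.cκ
  have hRy : ∀ P : MvPolynomial (Fin n) ℂ, Coef κ P → aeval q P = 0 → aeval y P = 0 := by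
    intro P hP h0
    have h1 := hR (rename Sum.inl P) (by
      obtain ⟨P', rfl⟩ := VGS.coef_iff.1 hP
      exact VGS.coef_iff.2 ⟨rename Sum.inl P', by rw [map_rename]⟩) (by
        rw [aeval_rename]; exact h0)
    rw [aeval_rename] at h1
    exact h1
  have hyi₀ : y i₀ = 1 := by
    have h1 := hRy (X i₀ - 1) (VGS.coef_iff.2 ⟨X i₀ - 1, by simp⟩) (by
      rw [map_sub, aeval_X, map_one, hqi, sub_self])
    rw [map_sub, aeval_X, map_one] at h1
    exact sub_eq_zero.1 h1
  -- the scaled point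
  have hscale : ∀ (P : MvPolynomial (Fin n) ℂ) (e : ℕ), P.IsHomogeneous e →
      aeval (fun j => y j / y i) P = (y i)⁻¹ ^ e * aeval y P := by
    intro P e hP
    exact pp_aeval_scale hP fun j => by rw [div_eq_mul_inv, mul_comm]
  have hSlim : ∀ i' l, Sp V Cc (aeval (fun j => y j / y i) (S i' l)) (aeval w (S i' l)) :=
    fun i' l => VGS.Sp.aeval hV ((H.coefS i' l).mono hκC) hyw
  by_cases hS : mnr S I N w ≠ 0
  · left
    -- the relations
    have hrel : ∀ i', ∑ l, A' l * aeval (fun j => y j / y i) (S i' l) = 0 := by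
      intro i'
      choose S' hS' using fun l => VGS.coef_iff.1 (H.coefS i' l)
      obtain ⟨P, hP⟩ : ∃ P : MvPolynomial (Fin n ⊕ Λ) κ, P = ∑ l,
        X (Sum.inr l) * rename Sum.inl (S' l) := ⟨_, rfl⟩
      have key : ∀ (z : Fin n → ℂ) (B : Λ → ℂ), (aeval (Sum.elim z B) P : ℂ) =
          ∑ l, B l * aeval z (S i' l) := by
        intro z B
        rw [hP, map_sum]
        refine Finset.sum_congr rfl fun l _ => ?_
        rw [map_mul, aeval_X, aeval_rename, ← hS' l, aev]
        rfl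
      have h1 : (aeval (Sum.elim q A) P : ℂ) = 0 := by
        rw [key, ← aevalG H, hqG.2]
      have h2 := inR_ap hR P h1
      rw [key] at h2
      have h3 := congrArg (fun x => (y i)⁻¹ ^ (d (Fin.natAdd s i')) * x) h2
      simp only [mul_zero, Finset.mul_sum] at h3
      refine Eq.trans (Finset.sum_congr rfl fun l _ => ?_) h3
      rw [hscale _ _ (H.homS i' l)]
      ring
    -- the sum over the letters outside of `N`
    have hsplit : ∀ (B : Λ → ℂ) (f : Λ → ℂ), ∑ l, B l * f l =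
        ∑ j, f (N j) * B (N j) + ∑ l : {l // l ∉ Set.range N}, B l * f l := by
      intro B f
      rw [← Fintype.sum_subtype_add_sum_subtype (fun l => l ∈ Set.range N) fun l => B l * f l]
      congr 1
      exact Eq.symm (@Fintype.sum_equiv (Fin c) {l // l ∈ Set.range N} ℂ _ (_) _
        (Equiv.ofInjective N hNi) (fun j => f (N j) * B (N j)) (fun l => B l * f l)
        fun j => mul_comm _ _)
    have hAN : ∀ j, Sp V Cc (A' (N j)) (A (N j)) := by
      refine sp_solve hV (Q := Matrix.of fun i' j => aeval (fun j => y j / y i) (S (I i') (N j)))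
        (Q' := Matrix.of fun i' j => aeval w (S (I i') (N j))) (fun i' j => hSlim _ _) hS
        (x := fun j => A' (N j)) (x' := fun j => A (N j)) fun i' => ?_
      have h1 := hrel (I i')
      rw [hsplit] at h1
      have h2 := aevalG H w (I i')
      rw [hwG.2, hsplit] at h2
      have h3 : Sp V Cc (∑ l : {l // l ∉ Set.range N}, A' l *
          aeval (fun j => y j / y i) (S (I i') l)) (∑ l : {l // l ∉ Set.range N}, A l *
            aeval w (S (I i') l)) :=
        VGS.Sp.sum hV _ fun l _ => (hA' l).mul hV (hSlim _ _)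
      have h4 := h3.neg hV
      rw [← eq_neg_of_add_eq_zero_left h1, ← eq_neg_of_add_eq_zero_left h2.symm] at h4
      exact h4
    have hAall : ∀ l, Sp V Cc (A' l) (A l) := by
      intro l
      by_cases h : l ∈ Set.range N
      · obtain ⟨j, rfl⟩ := h
        exact hAN j
      · exact hA' ⟨l, h⟩
    have hfin := fin_lim hκC hV hAall hqE hR
    have hwi₀ : w i₀ ≠ 0 := by
      intro h0
      have h1 := hyw i₀
      rw [hyi₀, h0, one_div] at h1
      have h2 := h1.2
      rw [sub_zero, pp_lt_one_iff, inv_inv] at h2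
      rcases h2 with h2 | h2
      · exact inv_ne_zero hyi h2
      · exact h2 (hfin i)
    have hlim : ∀ j, Sp V Cc (y j) (w j / w i₀) := by
      intro j
      have h1 := (hyw j).div hV (hyw i₀) hwi₀
      rw [hyi₀] at h1
      have h2 : y j / y i / (1 / y i) = y j := by
        field_simp
      rwa [h2] at h1
    have hInR : InR κ (Sum.elim q A) (Sum.elim (fun j => w j / w i₀) A) := by
      refine inR_of fun f hf => ?_
      have h1 := inR_ap hR f hf
      have h2 : Sp V Cc (aeval (Sum.elim y A') f) (aeval (Sum.elim (fun j => w j / w i₀) A) f) := by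
        refine sp_ap hκC hV f ?_
        rintro (j | l)
        · exact hlim j
        · exact hAall l
      rw [h1] at h2
      exact VGS.Sp.unique hV h2 (VGS.Sp.const hV (zero_mem _))
    obtain ⟨σ, hσ, hσq⟩ := conj_of_inR hqE hInR
    refine ⟨σ, hσ, (w i₀)⁻¹, inv_ne_zero hwi₀, fun j => ?_⟩
    rw [hσq j, div_eq_mul_inv, mul_comm]
  · right
    push Not at hS
    refine ⟨fun I' N' hl h0 => hl ?_, hS⟩
    rw [← aeval_mnrP] at h0
    have h1 := hRy _ (coef_mnrP H.coefS I' N') h0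
    have h2 : Sp V Cc (mnr S I' N' fun j => y j / y i) (mnr S I' N' w) :=
      sp_det hV fun i' j => hSlim _ _
    rw [← aeval_mnrP, hscale _ _ (hom_mnrP H.homS I' N'), h1, mul_zero] at h2
    exact VGS.Sp.unique hV h2 (VGS.Sp.const hV (zero_mem _))

end RedB

end Pool.Agent.VRB
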